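import Pool.Agent.H18.AS.Help

set_option autoImplicit false

/-!
# Balls of vertices with nearly the same neighbourhood
-/

namespace Pool.Agent.H18.AS

open Finset Pool.Agent.Y394.AT Pool.Agent.Q112.GS

open Classical in
/-- The vertices whose neighbourhood is the neighbourhood of `x` up to `t d` vertices. -/
noncomputable def ball {V : Type} [Fintype V] (P : SimpleGraph V) (d t : ℝ) (x : V) : Finset V :=
  (univ : Finset V).filter (fun y => (1 - t) * d ≤ (cd P x y : ℝ))

section ball

variable {V I : Type} [Fintype V] {cl : V → V → I} {G P L : SimpleGraph V} {d la e : ℝ}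

theorem mem_ball (t : ℝ) (x y : V) : y ∈ ball P d t x ↔ (1 - t) * d ≤ (cd P x y : ℝ) := by
  unfold ball
  simp

theorem ball_symm {t : ℝ} {x y : V} (h : y ∈ ball P d t x) : x ∈ ball P d t y := by
  rw [mem_ball] at h ⊢
  rwa [cd_comm]

theorem ball_mono (hd : 0 ≤ d) {s t : ℝ} (hst : s ≤ t) (x : V) : ball P d s x ⊆ ball P d t x := by
  intro y hy
  rw [mem_ball] at hy ⊢
  refine le_trans ?_ hy
  exact mul_le_mul_of_nonneg_right (by linarith) hd

theorem self_mem_ball (hdeg : ∀ v, ((nb P v).card : ℝ) = d) (hd : 0 ≤ d) {t : ℝ} (ht : 0 ≤ t)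
    (x : V) : x ∈ ball P d t x := by
  rw [mem_ball, cd_self, hdeg]
  nlinarith

theorem sdiff_card [DecidableEq V] (hdeg : ∀ v, ((nb P v).card : ℝ) = d) (x y : V) :
    ((nb P x \ nb P y).card : ℝ) = d - cd P x y := by
  have h1 := Finset.card_sdiff_add_card_inter (nb P x) (nb P y)
  have h2 : (nb P x ∩ nb P y).card = cd P x y := by
    classical
    unfold cd
    congr 1
    ext w
    rw [Finset.mem_inter, mem_nb, mem_nb, Finset.mem_filter]
    simp
  rw [h2] at h1
  have h3 : ((nb P x \ nb P y).card : ℝ) + cd P x y = (nb P x).card := by exact_mod_cast h1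
  rw [hdeg] at h3
  linarith

theorem ball_sdiff [DecidableEq V] (hdeg : ∀ v, ((nb P v).card : ℝ) = d) {t : ℝ} {x y : V}
    (h : y ∈ ball P d t x) : ((nb P x \ nb P y).card : ℝ) ≤ t * d := by
  rw [mem_ball] at h
  rw [sdiff_card hdeg]
  linarith

theorem ball_tri (hdeg : ∀ v, ((nb P v).card : ℝ) = d) {s t : ℝ} {x y z : V}
    (h1 : y ∈ ball P d s x) (h2 : z ∈ ball P d t y) : z ∈ ball P d (s + t) x := by
  classical
  have h3 := ball_sdiff hdeg h1
  have h4 := ball_sdiff hdeg h2
  have h5 : (nb P x \ nb P z).card ≤ (nb P x \ nb P y).card + (nb P y \ nb P z).card := by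
    refine le_trans (Finset.card_le_card ?_) (Finset.card_union_le _ _)
    intro w hw
    rw [Finset.mem_sdiff] at hw
    rw [Finset.mem_union, Finset.mem_sdiff, Finset.mem_sdiff]
    by_cases hwy : w ∈ nb P y
    · exact Or.inr ⟨hwy, hw.2⟩
    · exact Or.inl ⟨hw.1, hwy⟩
  have h6 : ((nb P x \ nb P z).card : ℝ) ≤ (nb P x \ nb P y).card + (nb P y \ nb P z).card := by
    exact_mod_cast h5
  rw [sdiff_card hdeg x z] at h6
  rw [mem_ball]
  linarith

theorem ball_card (hcoh : Coh cl) (hP : UC cl P) (t : ℝ) (x x' : V) :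
    (ball P d t x).card = (ball P d t x').card := by
  classical
  unfold ball
  refine card_pq hcoh (fun i => ¬ CdCl cl P ((1 - t) * d) i) (fun _ => True) x x x' x'
    (hcoh.homog x x') _ _ ?_ ?_
  · intro w
    rw [cd_iff hcoh hP, not_lt]
    tauto
  · intro w
    rw [cd_iff hcoh hP, not_lt]
    tauto

theorem ball_le (hS : Scale cl G P L d la e) {t : ℝ} (ht : t ≤ 1 / 2) (x : V) :
    ((ball P d t x).card : ℝ) ≤ 2 * d := by
  classical
  have hd : 0 < d := by linarith [hS.one]
  have h1 : ball P d t x ⊆ ball P d (1 / 2) x := ball_mono hd.le ht x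
  have h2 : ((ball P d t x).card : ℝ) ≤ (ball P d (1 / 2) x).card := by
    exact_mod_cast Finset.card_le_card h1
  refine h2.trans ?_
  have h3 := heavy_card hS.reg hd (1 / 2) (by norm_num) x
  have h4 : ball P d (1 / 2) x =
      (univ : Finset V).filter (fun w => 1 / 2 * d ≤ (cd P x w : ℝ)) := by
    unfold ball
    congr 1
    ext w
    norm_num
  rw [h4]
  refine h3.trans (le_of_eq ?_)
  ring

open Classical in
/-- A vertex of a large class at `x` is adjacent to almost all vertices of the balls around `x`. -/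
theorem fact1 (hS : Scale cl G P L d la e) (hla : 0 < la) {t : ℝ} {x z : V}
    (hxz : L.Adj x z) :
    (((ball P d t x).filter (fun u => ¬ P.Adj u z)).card : ℝ) ≤
      t / la * (ball P d t x).card := by
  have hd : 0 < d := by linarith [hS.one]
  set X := outS cl (cl x z) x with hX
  have hXc : la * d ≤ (X.card : ℝ) := hS.val x z hxz
  set b : ℕ := ((ball P d t x).filter (fun u => ¬ P.Adj u z)).card with hb
  have h1 := Finset.sum_card_bipartiteAbove_eq_sum_card_bipartiteBelow (s := X)
    (t := ball P d t x) (fun z' u => ¬ P.Adj u z')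
  unfold Finset.bipartiteAbove Finset.bipartiteBelow at h1
  have h2 : ∀ z' ∈ X, ((ball P d t x).filter (fun u => ¬ P.Adj u z')).card = b := by
    intro z' hz'
    have h3 : cl x z' = cl x z := (mem_outS _ x z').1 hz'
    rw [hb]
    have e1 : ∀ z' : V, (ball P d t x).filter (fun u => ¬ P.Adj u z') =
        (univ : Finset V).filter (fun u => (1 - t) * d ≤ (cd P x u : ℝ) ∧ ¬ P.Adj u z') := by
      intro z'
      ext u
      rw [Finset.mem_filter, mem_ball, Finset.mem_filter]
      simp
    rw [e1, e1]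
    refine card_pq hS.coh (fun i => ¬ CdCl cl P ((1 - t) * d) i) (fun i => ¬ AdjCl cl P i)
      x z' x z h3 _ _ ?_ ?_
    · intro w
      rw [cd_iff hS.coh hS.ucP, not_lt, adj_iff hS.ucP]
    · intro w
      rw [cd_iff hS.coh hS.ucP, not_lt, adj_iff hS.ucP]
  have h3 : ∀ u ∈ ball P d t x, ((X.filter (fun z' => ¬ P.Adj u z')).card : ℝ) ≤ t * d := by
    intro u hu
    refine le_trans ?_ (ball_sdiff hS.deg hu)
    have : (X.filter (fun z' => ¬ P.Adj u z')).card ≤ (nb P x \ nb P u).card := by
      apply Finset.card_le_card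
      intro z' hz'
      obtain ⟨h4, h5⟩ := Finset.mem_filter.1 hz'
      rw [Finset.mem_sdiff, mem_nb, mem_nb]
      refine ⟨hS.ucP x z x z' ((mem_outS _ x z').1 h4).symm (hS.leP hxz), h5⟩
    exact_mod_cast this
  have h4 : (X.card : ℝ) * b ≤ ((ball P d t x).card : ℝ) * (t * d) := by
    calc (X.card : ℝ) * b
        = ∑ z' ∈ X, (((ball P d t x).filter (fun u => ¬ P.Adj u z')).card : ℝ) := by
          rw [Finset.sum_congr rfl (fun z' hz' => by rw [h2 z' hz']), Finset.sum_const,
            nsmul_eq_mul]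
      _ = ∑ u ∈ ball P d t x, ((X.filter (fun z' => ¬ P.Adj u z')).card : ℝ) := by
          exact_mod_cast h1
      _ ≤ ∑ u ∈ ball P d t x, t * d := Finset.sum_le_sum h3
      _ = ((ball P d t x).card : ℝ) * (t * d) := by rw [Finset.sum_const, nsmul_eq_mul]
  have h5 : (la * d) * b ≤ (la * d) * (t / la * (ball P d t x).card) := by
    calc (la * d) * b ≤ (X.card : ℝ) * b :=
          mul_le_mul_of_nonneg_right hXc (Nat.cast_nonneg _)
      _ ≤ ((ball P d t x).card : ℝ) * (t * d) := h4
      _ = (la * d) * (t / la * (ball P d t x).card) := by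
          field_simp
  exact le_of_mul_le_mul_left h5 (by positivity)

end ball

open Classical in
/-- The balls are not too small: the first bound. -/
theorem apriori (m : ℕ) (F : SimpleGraph (Fin m)) (hF : F.IsAcyclic) (k : ℕ)
    (hk : 1 ≤ k) (la : ℝ) (hla : 0 < la) (hla1 : la ≤ 1) (s0 : ℝ) (hs0 : 0 < s0) :
    ∃ κ0 : ℝ, 0 < κ0 ∧ ∃ e : ℝ, 0 < e ∧ ∃ d0 : ℝ, ∀ (V I : Type) [Fintype V]
      (cl : V → V → I) (G P L : SimpleGraph V) (d : ℝ), d0 ≤ d → Scale cl G P L d la e →
      G.CliqueFree (k + 1) → IsEmpty (F ↪g G) →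
      ∀ x, κ0 * d ≤ ((ball P d s0 x).card : ℝ) := by
  obtain ⟨N, hN⟩ := Pool.Agent.W259.GS.noShatter F hF.colorable_two (k + 1)
  set ε : ℝ := s0 / 8 with hε
  have hε0 : 0 < ε := by positivity
  obtain ⟨δ, hδ, e1, he1, d0, hhelp⟩ := helped_h m F hF k hk la hla hla1 ε hε0
  set C1 : ℝ := 4 / (δ ^ 2 * (la / 2)) with hC1
  have hC10 : 0 < C1 := by positivity
  obtain ⟨M, hM⟩ := packing_unif N (s0 / 2 / (C1 + 1)) (by positivity)
  refine ⟨la / (M + 1), by positivity, min e1 (s0 / 4), lt_min he1 (by positivity), d0, ?_⟩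
  intro V I _ cl G P L d hd hS0 hfree hemp x
  have hS : Scale cl G P L d la e1 := hS0.mono (min_le_left _ _)
  have hS4 : Scale cl G P L d la (s0 / 4) := hS0.mono (min_le_right _ _)
  have hd0 : 0 < d := by linarith [hS.one]
  have hhe := hhelp V I cl G P L d hd hS hfree hemp
  obtain ⟨u, y0, huy0⟩ := hS.arc
  set K := Far2 P d δ (la / 2) u with hK
  have hKc : (K.card : ℝ) ≤ C1 * d := far2_card hS.reg hd0 δ (la / 2) hδ (by positivity) u
  -- almost all neighbours of the vertices `y` are in `K`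
  have hKy : ∀ y, L.Adj u y → ((nb P y \ K).card : ℝ) ≤ s0 / 4 * d := by
    intro y huy
    obtain ⟨Z, hZc, hZ⟩ := hhe u y huy
    set W := nb P y \ K with hW
    have hWfew : ∀ w ∈ W, (Z.card : ℝ) / 2 ≤
        ((Z.filter (fun z => (cd P z w : ℝ) < δ * d)).card : ℝ) := by
      intro w hw
      have hw2 : w ∉ Far2 P d δ (la / 2) u := (Finset.mem_sdiff.1 hw).2
      have h1 : (((univ : Finset V).filter (fun z => δ / 2 * d ≤ (cd P u z : ℝ) ∧
          δ * d ≤ (cd P z w : ℝ))).card : ℝ) < la / 2 / 2 * d := by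
        by_contra hcon
        exact hw2 (Finset.mem_filter.2 ⟨Finset.mem_univ _, not_lt.1 hcon⟩)
      have h2 : (Z.filter (fun z => ¬ (cd P z w : ℝ) < δ * d)).card ≤
          ((univ : Finset V).filter (fun z => δ / 2 * d ≤ (cd P u z : ℝ) ∧
          δ * d ≤ (cd P z w : ℝ))).card := by
        apply Finset.card_le_card
        intro z hz
        obtain ⟨hz1, hz2⟩ := Finset.mem_filter.1 hz
        refine Finset.mem_filter.2 ⟨Finset.mem_univ _, le_trans ?_ (hZ z hz1).1, not_lt.1 hz2⟩
        have : 0 ≤ δ * d := by positivity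
        linarith
      have h2' : ((Z.filter (fun z => ¬ (cd P z w : ℝ) < δ * d)).card : ℝ) ≤
          (((univ : Finset V).filter (fun z => δ / 2 * d ≤ (cd P u z : ℝ) ∧
          δ * d ≤ (cd P z w : ℝ))).card : ℝ) := by exact_mod_cast h2
      have h3 := Finset.card_filter_add_card_filter_not (s := Z)
        (fun z => (cd P z w : ℝ) < δ * d)
      have h3' : ((Z.filter (fun z => (cd P z w : ℝ) < δ * d)).card : ℝ) +
          ((Z.filter (fun z => ¬ (cd P z w : ℝ) < δ * d)).card : ℝ) = Z.card := by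
        exact_mod_cast h3
      linarith
    have h1 := Finset.sum_card_bipartiteAbove_eq_sum_card_bipartiteBelow (s := Z)
      (t := W) (fun z w => (cd P z w : ℝ) < δ * d)
    unfold Finset.bipartiteAbove Finset.bipartiteBelow at h1
    have h2 : ((Z.card : ℝ) / 2) * (W.card : ℝ) ≤ (Z.card : ℝ) * (ε * d) := by
      calc ((Z.card : ℝ) / 2) * (W.card : ℝ) = ∑ w ∈ W, (Z.card : ℝ) / 2 := by
            rw [Finset.sum_const, nsmul_eq_mul, mul_comm]
        _ ≤ ∑ w ∈ W, ((Z.filter (fun z => (cd P z w : ℝ) < δ * d)).card : ℝ) :=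
            Finset.sum_le_sum hWfew
        _ = ∑ z ∈ Z, ((W.filter (fun w => (cd P z w : ℝ) < δ * d)).card : ℝ) := by
            exact_mod_cast h1.symm
        _ ≤ ∑ z ∈ Z, ε * d := by
            apply Finset.sum_le_sum
            intro z hz
            refine le_trans ?_ (hZ z hz).2
            exact_mod_cast Finset.card_le_card
              (Finset.filter_subset_filter _ Finset.sdiff_subset)
        _ = (Z.card : ℝ) * (ε * d) := by rw [Finset.sum_const, nsmul_eq_mul]
    have hZ0 : 0 < (Z.card : ℝ) := lt_of_lt_of_le (by positivity) hZc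
    have h3 : (Z.card : ℝ) * (W.card : ℝ) ≤ (Z.card : ℝ) * (s0 / 4 * d) := by
      rw [hε] at h2
      linarith
    exact le_of_mul_le_mul_left h3 hZ0
  set K2 := insert u K with hK2
  have hK2c : (K2.card : ℝ) ≤ (C1 + 1) * d := by
    have h1 : K2.card ≤ K.card + 1 := Finset.card_insert_le _ _
    have h2 : (K2.card : ℝ) ≤ K.card + 1 := by exact_mod_cast h1
    linarith [hS.one]
  obtain ⟨U, hUX, hUfar, hUnet⟩ := exists_net (nb L u)
    (fun a b => (cd P a b : ℝ) < (1 - s0) * d) (fun a b hab => by rw [cd_comm]; exact hab)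
  have hUM : U.card < M := by
    refine hM V G K2 (Finset.insert_nonempty _ _) (fun X hX => hN V G X hfree hemp hX) U ?_
    intro a ha b hb hab
    have hfar := hUfar a ha b hb hab
    have hKa := hKy a ((mem_nb L u a).1 (hUX ha))
    have h1 : (nb P a \ nb P b).card ≤ (nb P a \ K).card +
        (((nb P a).filter (fun w => G.Adj b w ∧ ¬ P.Adj b w)).card +
        Set.ncard {w | w ∈ K2 ∧ ¬ (G.Adj a w ↔ G.Adj b w)}) := by
      have h2 : {w | w ∈ K2 ∧ ¬ (G.Adj a w ↔ G.Adj b w)} =
          ((K2.filter (fun w => ¬ (G.Adj a w ↔ G.Adj b w)) : Finset V) : Set V) := by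
        ext w
        simp
      rw [h2, Set.ncard_coe_finset]
      have h3 : nb P a \ nb P b ⊆ (nb P a \ K) ∪
          (((nb P a).filter (fun w => G.Adj b w ∧ ¬ P.Adj b w)) ∪
          K2.filter (fun w => ¬ (G.Adj a w ↔ G.Adj b w))) := by
        intro w hw
        rw [Finset.mem_sdiff, mem_nb P b] at hw
        rw [Finset.mem_union, Finset.mem_union, Finset.mem_sdiff, Finset.mem_filter,
          Finset.mem_filter]
        by_cases hwK : w ∈ K
        · right
          by_cases hbw : G.Adj b w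
          · exact Or.inl ⟨hw.1, hbw, hw.2⟩
          · right
            refine ⟨Finset.mem_insert_of_mem hwK, fun h => hbw (h.1 ?_)⟩
            exact hS.leG ((mem_nb P a w).1 hw.1)
        · exact Or.inl ⟨hw.1, hwK⟩
      refine (Finset.card_le_card h3).trans ((Finset.card_union_le _ _).trans ?_)
      exact Nat.add_le_add_left (Finset.card_union_le _ _) _
    have h1' : ((nb P a \ nb P b).card : ℝ) ≤ (nb P a \ K).card +
        (((nb P a).filter (fun w => G.Adj b w ∧ ¬ P.Adj b w)).card +
        (Set.ncard {w | w ∈ K2 ∧ ¬ (G.Adj a w ↔ G.Adj b w)} : ℝ)) := by exact_mod_cast h1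
    rw [sdiff_card hS.deg] at h1'
    have h2 := hS4.sep a b
    have h3 : s0 / 2 / (C1 + 1) * (K2.card : ℝ) ≤ s0 / 2 * d := by
      calc s0 / 2 / (C1 + 1) * (K2.card : ℝ) ≤ s0 / 2 / (C1 + 1) * ((C1 + 1) * d) :=
            mul_le_mul_of_nonneg_left hK2c (by positivity)
        _ = s0 / 2 * d := by field_simp
    linarith
  -- the balls around the vertices of the net cover the neighbourhood
  have h1 : (nb L u).card ≤ ∑ a ∈ U, (ball P d s0 a).card := by
    refine le_trans (Finset.card_le_card ?_) (Finset.card_biUnion_le)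
    intro y hy
    rw [Finset.mem_biUnion]
    obtain ⟨a, haU, ha⟩ := hUnet y hy
    refine ⟨a, haU, ?_⟩
    rcases ha with ha | ha
    · rw [ha]
      exact self_mem_ball hS.deg hd0.le hs0.le a
    · rw [not_lt] at ha
      rw [mem_ball, cd_comm]
      exact ha
  have h2 : ∑ a ∈ U, (ball P d s0 a).card = U.card * (ball P d s0 x).card := by
    rw [Finset.sum_congr rfl (fun a _ => ball_card hS.coh hS.ucP s0 a x), Finset.sum_const,
      smul_eq_mul]
  rw [h2] at h1
  have h3 : (outS cl (cl u y0) u).card ≤ (nb L u).card := by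
    apply Finset.card_le_card
    intro w hw
    rw [mem_nb]
    exact hS.ucL u y0 u w ((mem_outS _ u w).1 hw).symm huy0
  have h4 : la * d ≤ (U.card : ℝ) * (ball P d s0 x).card := by
    refine (hS.val u y0 huy0).trans ?_
    exact_mod_cast h3.trans h1
  have h5 : (U.card : ℝ) ≤ M + 1 := by
    have : (U.card : ℝ) < M := by exact_mod_cast hUM
    linarith
  rw [div_mul_eq_mul_div, div_le_iff₀ (by positivity)]
  calc la * d ≤ (U.card : ℝ) * (ball P d s0 x).card := h4
    _ ≤ (M + 1) * (ball P d s0 x).card := mul_le_mul_of_nonneg_right h5 (Nat.cast_nonneg _)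
    _ = (ball P d s0 x).card * (M + 1) := mul_comm _ _

end Pool.Agent.H18.AS
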