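import Pool.Agent.H18.AS.Level2

set_option autoImplicit false

/-!
# Closed equivalence relations which commute with all classes
-/

namespace Pool.Agent.H18.AS

open Finset Pool.Agent.Y394.AT Pool.Agent.Q112.GS

/-- A closed subset: an equivalence relation which is a union of classes. -/
structure Closed {V I : Type} (cl : V → V → I) (E : V → V → Prop) : Prop where
  equiv : Equivalence E
  inv : ∀ x y x' y', cl x y = cl x' y' → E x y → E x' y'

/-- Every closed subset commutes with the classes in `G`. -/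
def Normal {V I : Type} (cl : V → V → I) (G : SimpleGraph V) : Prop :=
  ∀ E, Closed cl E → ∀ x y z, E x y → G.Adj y z → ∃ w, cl x w = cl y z ∧ E w z

/-- the diagonal is a class -/
def Diag {V I : Type} (cl : V → V → I) : Prop := ∀ x y z, cl x x = cl y z → y = z

section restrict

variable {V I : Type} [Fintype V] {cl : V → V → I} {E : V → V → Prop}

theorem coh_block (hcoh : Coh cl) (hE : Closed cl E) (b : V) :
    Coh (fun x y : {y // E b y} => cl x.1 y.1) where
  symm := fun x y x' y' h => hcoh.symm x.1 y.1 x'.1 y'.1 h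
  homog := fun x y => hcoh.homog x.1 y.1
  count := by
    intro x y x' y' h i j
    by_cases hi : ∃ p q, cl p q = i ∧ E p q
    · obtain ⟨p, q, hpq, hEpq⟩ := hi
      have key : ∀ x y : {y // E b y},
          {z : {y // E b y} | cl x.1 z.1 = i ∧ cl z.1 y.1 = j}.ncard =
          {z : V | cl x.1 z = i ∧ cl z y.1 = j}.ncard := by
        intro x y
        rw [← Set.ncard_image_of_injective _ (Subtype.val_injective (p := fun y => E b y))]
        congr 1
        ext z
        simp only [Set.mem_image, Set.mem_ofPred_eq]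
        constructor
        · rintro ⟨w, hw, rfl⟩
          exact hw
        · intro hz
          have hEz : E x.1 z := hE.inv p q x.1 z (by rw [hpq, hz.1]) hEpq
          exact ⟨⟨z, hE.equiv.trans x.2 hEz⟩, hz, rfl⟩
      rw [key x y, key x' y']
      exact hcoh.count x.1 y.1 x'.1 y'.1 h i j
    · push Not at hi
      have key : ∀ x y : {y // E b y},
          {z : {y // E b y} | cl x.1 z.1 = i ∧ cl z.1 y.1 = j}.ncard = 0 := by
        intro x y
        rw [Set.ncard_eq_zero (Set.toFinite _), Set.eq_empty_iff_forall_notMem]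
        rintro z ⟨hz, _⟩
        exact hi x.1 z.1 hz (hE.equiv.trans (hE.equiv.symm x.2) z.2)
      rw [key x y, key x' y']

theorem diag_block (hd : Diag cl) (b : V) : Diag (fun x y : {y // E b y} => cl x.1 y.1) :=
  fun x y z h => Subtype.ext (hd x.1 y.1 z.1 h)

/-- A closed subset of a block is a closed subset. -/
theorem closed_block (hcoh : Coh cl) (hE : Closed cl E) (b : V)
    (E' : {y // E b y} → {y // E b y} → Prop)
    (hE' : Closed (fun x y : {y // E b y} => cl x.1 y.1) E') :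
    Closed cl (fun x y => E x y ∧ ∃ p q : {y // E b y}, cl p.1 q.1 = cl x y ∧ E' p q) where
  inv := by
    rintro x y x' y' h ⟨h1, p, q, h2, h3⟩
    exact ⟨hE.inv x y x' y' h h1, p, q, h2.trans h, h3⟩
  equiv := by
    have hb : E b b := hE.equiv.refl b
    refine ⟨?_, ?_, ?_⟩
    · intro x
      exact ⟨hE.equiv.refl x, ⟨b, hb⟩, ⟨b, hb⟩, hcoh.homog b x, hE'.equiv.refl _⟩
    · rintro x y ⟨h1, p, q, h2, h3⟩
      exact ⟨hE.equiv.symm h1, q, p, hcoh.symm p.1 q.1 x y h2, hE'.equiv.symm h3⟩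
    · rintro x y z ⟨h1, p, q, h2, h3⟩ ⟨h1', p', q', h2', h3'⟩
      have hxz : E x z := hE.equiv.trans h1 h1'
      obtain ⟨z0, hz1, _⟩ := coh_mid hcoh (hcoh.homog x b) z
      have hbz : E b z0 := hE.inv x z b z0 hz1.symm hxz
      obtain ⟨y0, hy1, hy2⟩ := coh_mid hcoh hz1.symm y
      have hby : E b y0 := hE.inv x y b y0 hy1.symm h1
      refine ⟨hxz, ⟨b, hb⟩, ⟨z0, hbz⟩, hz1, ?_⟩
      have h4 : E' ⟨b, hb⟩ ⟨y0, hby⟩ :=
        hE'.inv p q ⟨b, hb⟩ ⟨y0, hby⟩ (h2.trans hy1.symm) h3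
      have h5 : E' ⟨y0, hby⟩ ⟨z0, hbz⟩ :=
        hE'.inv p' q' ⟨y0, hby⟩ ⟨z0, hbz⟩ (h2'.trans hy2.symm) h3'
      exact hE'.equiv.trans h4 h5

theorem normal_block (hcoh : Coh cl) (G : SimpleGraph V) (hN : Normal cl G) (hE : Closed cl E)
    (b : V) : Normal (fun x y : {y // E b y} => cl x.1 y.1) (G.induce {y | E b y}) := by
  intro E' hE' x y z hxy hG
  have hxy' : E x.1 y.1 := hE.equiv.trans (hE.equiv.symm x.2) y.2
  have hyz' : E y.1 z.1 := hE.equiv.trans (hE.equiv.symm y.2) z.2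
  obtain ⟨w, hw1, hw2, p, q, hw3, hw4⟩ := hN _ (closed_block hcoh hE b E' hE') x.1 y.1 z.1
    ⟨hxy', x, y, rfl, hxy⟩ hG
  have hxw : E x.1 w := hE.inv y.1 z.1 x.1 w hw1.symm hyz'
  refine ⟨⟨w, hE.equiv.trans x.2 hxw⟩, hw1, ?_⟩
  exact hE'.inv p q ⟨w, hE.equiv.trans x.2 hxw⟩ z hw3 hw4

end restrict

section colour

variable {V I : Type} [Fintype V] {cl : V → V → I} {E : V → V → Prop}

/-- representatives of the blocks -/
theorem exists_rep (hE : Equivalence E) : ∃ rep : V → V, (∀ x, E (rep x) x) ∧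
    ∀ x y, E x y → rep x = rep y := by
  let s : Setoid V := ⟨E, hE⟩
  refine ⟨fun x => (Quotient.mk s x).out, ?_, ?_⟩
  · intro x
    exact Quotient.exact (Quotient.out_eq (Quotient.mk s x))
  · intro x y hxy
    have : Quotient.mk s x = Quotient.mk s y := Quotient.sound hxy
    simp only [this]

/-- A graph whose neighbourhoods are covered by few blocks of a normal closed subset. -/
theorem colour_cov (Q : SimpleGraph V) (M : ℕ)
    (hQ : UC cl Q) (hE : Closed cl E)
    (hn : ∀ x y z, E x y → Q.Adj y z → ∃ w, cl x w = cl y z ∧ E w z)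
    (hQE : ∀ x y, Q.Adj x y → ¬ E x y)
    (hcov : ∀ u, ∃ T : Finset V, T.card ≤ M ∧ ∀ y, Q.Adj u y → ∃ t ∈ T, E t y) :
    Q.Colorable (M + 1) := by
  classical
  obtain ⟨rep, hrep1, hrep2⟩ := exists_rep hE.equiv
  have hrr : ∀ x, rep (rep x) = rep x := fun x => hrep2 _ _ (hrep1 x)
  set R : SimpleGraph V :=
    { Adj := fun p q => p ≠ q ∧ rep p = p ∧ rep q = q ∧ ∃ a b, E p a ∧ E q b ∧ Q.Adj a b
      symm := ⟨fun p q h => ⟨h.1.symm, h.2.2.1, h.2.1, by
        obtain ⟨_, _, _, a, b, h1, h2, h3⟩ := h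
        exact ⟨b, a, h2, h1, h3.symm⟩⟩⟩
      loopless := ⟨fun p h => h.1 rfl⟩ } with hR
  have hRadj : ∀ p q, R.Adj p q ↔ (p ≠ q ∧ rep p = p ∧ rep q = q ∧
      ∃ a b, E p a ∧ E q b ∧ Q.Adj a b) := fun _ _ => Iff.rfl
  have hdeg : ∀ p, (nb R p).card ≤ M := by
    intro p
    obtain ⟨T, hT1, hT2⟩ := hcov p
    refine le_trans (Finset.card_le_card (t := T.image rep) ?_) (Finset.card_image_le.trans hT1)
    intro q hq
    rw [mem_nb, hRadj] at hq
    obtain ⟨_, _, hq3, a, b, h1, h2, h3⟩ := hq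
    obtain ⟨w, hw1, hw2⟩ := hn p a b h1 h3
    have hw3 : Q.Adj p w := hQ a b p w hw1.symm h3
    obtain ⟨t, ht1, ht2⟩ := hT2 w hw3
    rw [Finset.mem_image]
    refine ⟨t, ht1, ?_⟩
    rw [← hq3]
    exact hrep2 t q (hE.equiv.trans ht2 (hE.equiv.trans hw2 (hE.equiv.symm h2)))
  obtain ⟨col⟩ := colorable_of_deg R M hdeg
  refine ⟨SimpleGraph.Coloring.mk (fun v => col (rep v)) ?_⟩
  intro v v' hvv' hcol
  have hne : rep v ≠ rep v' := by
    intro heq
    refine hQE v v' hvv' (hE.equiv.trans (hE.equiv.symm (hrep1 v)) ?_)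
    rw [heq]
    exact hrep1 v'
  have hRvv : R.Adj (rep v) (rep v') :=
    (hRadj _ _).2 ⟨hne, hrr v, hrr v', v, v', hrep1 v, hrep1 v', hvv'⟩
  exact col.valid hRvv hcol

/-- Colouring the blocks. -/
theorem colour_blocks (G Q : SimpleGraph V) (C : ℕ) (hE : Equivalence E)
    (hQ : ∀ x y, Q.Adj x y → E x y ∧ G.Adj x y)
    (hcol : ∀ b, (G.induce {y | E b y}).Colorable C) : Q.Colorable C := by
  classical
  obtain ⟨rep, hrep1, hrep2⟩ := exists_rep hE
  have hc : ∀ b, ∃ c : {y | E b y} → Fin C, ∀ x y, G.Adj x.1 y.1 → c x ≠ c y := by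
    intro b
    obtain ⟨c⟩ := hcol b
    exact ⟨fun x => c x, fun x y hxy => c.valid (v := x) (w := y) hxy⟩
  choose c hc using hc
  refine ⟨SimpleGraph.Coloring.mk (fun v => c (rep v) ⟨v, hrep1 v⟩) ?_⟩
  intro v w hvw heq
  obtain ⟨h1, h2⟩ := hQ v w hvw
  have h3 : rep v = rep w := hrep2 v w h1
  have key : ∀ b b' (hb : b = b') (hw : E b' w), c b' ⟨w, hw⟩ = c b ⟨w, by rw [hb]; exact hw⟩ := by
    intro b b' hb hw
    subst hb
    rfl
  rw [key (rep v) (rep w) h3 (hrep1 w)] at heq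
  exact hc (rep v) ⟨v, hrep1 v⟩ ⟨w, _⟩ h2 heq

/-- Product colouring. -/
theorem colour_sup (G1 G2 : SimpleGraph V) (C1 C2 : ℕ) (h1 : G1.Colorable C1)
    (h2 : G2.Colorable C2) : (G1 ⊔ G2).Colorable (C1 * C2) := by
  obtain ⟨c1⟩ := h1
  obtain ⟨c2⟩ := h2
  refine ⟨SimpleGraph.Coloring.mk (fun v => finProdFinEquiv (c1 v, c2 v)) ?_⟩
  intro v w hvw heq
  have h3 := finProdFinEquiv.injective heq
  rw [Prod.ext_iff] at h3
  rcases hvw with h | h
  · exact c1.valid h h3.1
  · exact c2.valid h h3.2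

end colour

end Pool.Agent.H18.AS
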