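import Pool.Agent.H18.AS.Iter
import Pool.Graph.R_pool_sql_team_seeded_3997aac3.Q112.GS.Reduce

set_option autoImplicit false

/-!
# Sources of schemes all of whose closed subsets are normal
-/

namespace Pool.Agent.H18.AS

open Finset Pool.Agent.Y394.AT Pool.Agent.Q112.GS

theorem normal_of_comm {V I : Type} [Fintype V] {cl : V → V → I}
    (hc : ∀ x y i j, {z | cl x z = i ∧ cl z y = j}.ncard = {z | cl x z = j ∧ cl z y = i}.ncard) :
    ∀ G, Normal cl G := by
  intro G E hE x y z hxy _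
  have h1 := hc x z (cl x y) (cl y z)
  have h2 : 0 < {w | cl x w = cl x y ∧ cl w z = cl y z}.ncard := by
    rw [Set.ncard_pos (Set.toFinite _)]
    exact ⟨y, rfl, rfl⟩
  rw [h1, Set.ncard_pos (Set.toFinite _)] at h2
  obtain ⟨w, hw1, hw2⟩ := h2
  exact ⟨w, hw1, hE.inv x y w z hw2.symm hxy⟩

theorem comm_of_symm {V I : Type} {cl : V → V → I} (hcoh : Coh cl)
    (hs : ∀ x y, cl x y = cl y x) :
    ∀ x y i j, {z | cl x z = i ∧ cl z y = j}.ncard = {z | cl x z = j ∧ cl z y = i}.ncard := by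
  intro x y i j
  rw [hcoh.count x y y x (hs x y) i j]
  congr 1
  ext z
  simp only [Set.mem_ofPred_eq]
  rw [hs y z, hs z x]
  tauto

/-- primitive -/
def Prim {V I : Type} (cl : V → V → I) : Prop :=
  ∀ E, Closed cl E → (∀ x y, E x y → x = y) ∨ ∀ x y, E x y

theorem normal_of_prim {V I : Type} [Fintype V] {cl : V → V → I} (hcoh : Coh cl)
    (hp : Prim cl) (G : SimpleGraph V) : Normal cl G := by
  intro E hE x y z hxy _
  rcases hp E hE with h | h
  · have := h x y hxy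
    subst this
    exact ⟨z, rfl, hE.equiv.refl z⟩
  · obtain ⟨w, hw, _⟩ := coh_mid hcoh (hcoh.homog y x) z
    exact ⟨w, hw, h w z⟩

theorem prim_deg (m : ℕ) (F : SimpleGraph (Fin m)) (hF : F.IsAcyclic) (k : ℕ)
    (hk : 1 ≤ k) (r : ℕ) : ∃ D : ℕ, ∀ (V I : Type) [Fintype V]
      (cl : V → V → I) (G : SimpleGraph V), Coh cl → Diag cl → Prim cl → UC cl G →
      {i | ∃ x y, cl x y = i ∧ G.Adj x y}.ncard ≤ r → G.CliqueFree (k + 1) →
      IsEmpty (F ↪g G) → ∀ x, (nb G x).card ≤ D := by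
  obtain ⟨M', κ, hκ, hM'⟩ := step_lemma m F hF k hk r 0 0
  refine ⟨⌈(M' : ℝ) / κ⌉₊, ?_⟩
  intro V I _ cl G hcoh hdiag hp hucG hcls hfree hemp x
  by_cases hx : (nb G x).card = 0
  · rw [hx]
    exact Nat.zero_le _
  obtain ⟨y, hy⟩ := Finset.card_pos.1 (Nat.pos_of_ne_zero hx)
  rw [mem_nb] at hy
  obtain ⟨Q, E', _, hQ2, ⟨p1, p2, hp12⟩, hE', hQE, hcov, hκQ⟩ :=
    hM' V I cl G ⊥ (fun s => s.elim0) hcoh hdiag (normal_of_prim hcoh hp G) hucG hcls
      { ucH := fun x y x' y' _ h => h.elim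
        le := bot_le
        clos := fun s => s.elim0
        inb := fun s => s.elim0
        cov := fun b => ⟨fun s => s.elim0, fun s => s.elim0, fun y h => h.elim⟩ }
      ⟨x, y, hy, fun h => h.elim⟩ hfree hemp
  have hEq : ∀ x y, E' x y → x = y := by
    rcases hp E' hE' with h | h
    · exact h
    · exact absurd (h p1 p2) (hQE p1 p2 hp12)
  obtain ⟨T, hT1, hT2⟩ := hcov x
  have h1 : (nb Q x).card ≤ M' := by
    refine le_trans (Finset.card_le_card ?_) hT1
    intro y hy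
    obtain ⟨t, ht1, ht2⟩ := hT2 y ((mem_nb Q x y).1 hy)
    rw [← hEq t y ht2]
    exact ht1
  have h2 := hκQ x
  have h3 : (nb (G \ ⊥) x).card = (nb G x).card := by
    congr 1
    ext w
    rw [mem_nb, mem_nb, SimpleGraph.sdiff_adj]
    simp
  rw [h3] at h2
  have h4 : ((nb Q x).card : ℝ) ≤ M' := by exact_mod_cast h1
  have h5 : ((nb G x).card : ℝ) ≤ M' / κ := by
    rw [le_div_iff₀ hκ]
    linarith
  have h6 : ((nb G x).card : ℝ) ≤ ⌈(M' : ℝ) / κ⌉₊ := h5.trans (Nat.le_ceil _)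
  exact_mod_cast h6

section action

open Pointwise

variable {V Γ : Type} [Group Γ] [MulAction Γ V]

theorem diag_pcl : Diag (pcl Γ (V := V)) := by
  intro x y z h
  rw [pcl_eq] at h
  obtain ⟨g, h1, h2⟩ := h
  exact MulAction.injective g (h1.trans h2.symm)

theorem uc_pcl (G : SimpleGraph V) (hG : ∀ (g : Γ) x y, G.Adj x y → G.Adj (g • x) (g • y)) :
    UC (pcl Γ (V := V)) G := by
  intro x y x' y' h hxy
  have h' := h.symm
  rw [pcl_eq] at h'
  obtain ⟨g, rfl, rfl⟩ := h'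
  exact hG g x y hxy

theorem pcl_symm_of (h : ∀ x y : V, ∃ g : Γ, g • x = y ∧ g • y = x) (x y : V) :
    pcl Γ x y = pcl Γ y x := by
  rw [pcl_eq]
  obtain ⟨g, h1, h2⟩ := h y x
  exact ⟨g, h1, h2⟩

theorem prim_pcl [h : MulAction.IsPreprimitive Γ V] : Prim (pcl Γ (V := V)) := by
  intro E hE
  have hinv : ∀ (g : Γ) x y, E x y → E (g • x) (g • y) := by
    intro g x y hxy
    exact hE.inv x y _ _ (pcl_smul g x y).symm hxy
  by_cases hne : ∀ x y, E x y → x = y
  · exact Or.inl hne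
  right
  push Not at hne
  obtain ⟨a, b, hab, hne⟩ := hne
  have hblock : MulAction.IsBlock Γ {y | E a y} := by
    rw [MulAction.isBlock_iff_smul_eq_or_disjoint]
    intro g
    by_cases hd : Disjoint (g • {y | E a y}) {y | E a y}
    · exact Or.inr hd
    · left
      rw [Set.not_disjoint_iff] at hd
      obtain ⟨z, hz1, hz2⟩ := hd
      obtain ⟨w, hw, hwz⟩ := Set.mem_smul_set.1 hz1
      have hga : E a (g • a) := by
        have h1 : E (g • a) (g • w) := hinv g a w hw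
        rw [hwz] at h1
        exact hE.equiv.trans hz2 (hE.equiv.symm h1)
      ext y
      rw [Set.mem_smul_set]
      constructor
      · rintro ⟨v, hv, rfl⟩
        exact hE.equiv.trans hga (hinv g a v hv)
      · intro hy
        refine ⟨g⁻¹ • y, ?_, smul_inv_smul g y⟩
        have h1 : E (g • a) y := hE.equiv.trans (hE.equiv.symm hga) hy
        have h2 := hinv g⁻¹ _ _ h1
        rwa [inv_smul_smul] at h2
  rcases h.isTrivialBlock_of_isBlock hblock with h1 | h1
  · exact absurd (h1 (hE.equiv.refl a) hab) hne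
  · intro x y
    have hx : x ∈ {y | E a y} := by
      rw [h1]
      exact Set.mem_univ _
    have hy : y ∈ {y | E a y} := by
      rw [h1]
      exact Set.mem_univ _
    exact hE.equiv.trans (hE.equiv.symm hx) hy

end action

section cayley

variable {Γ : Type} [Group Γ]

/-- the conjugacy class of the quotient -/
def qcl (x y : Γ) : ConjClasses Γ := ConjClasses.mk (x⁻¹ * y)

theorem qcl_eq (x y x' y' : Γ) :
    qcl x y = qcl x' y' ↔ ∃ g : Γ, g * (x⁻¹ * y) * g⁻¹ = x'⁻¹ * y' := by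
  unfold qcl
  rw [ConjClasses.mk_eq_mk_iff_isConj, isConj_iff]

theorem coh_qcl : Coh (qcl (Γ := Γ)) where
  symm := by
    intro x y x' y' h
    rw [qcl_eq] at h ⊢
    obtain ⟨g, hg⟩ := h
    refine ⟨g, ?_⟩
    have h1 : y'⁻¹ * x' = (x'⁻¹ * y')⁻¹ := by group
    rw [h1, ← hg]
    group
  homog := by
    intro x y
    unfold qcl
    rw [inv_mul_cancel, inv_mul_cancel]
  count := by
    intro x y x' y' h i j
    rw [qcl_eq] at h
    obtain ⟨g, hg⟩ := h
    have hy' : y' = x' * (g * (x⁻¹ * y) * g⁻¹) := by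
      rw [hg]
      group
    have e1 : ∀ z, qcl x' (x' * g * x⁻¹ * z * g⁻¹) = qcl x z := by
      intro z
      rw [qcl_eq]
      refine ⟨g⁻¹, ?_⟩
      group
    have e2 : ∀ z, qcl (x' * g * x⁻¹ * z * g⁻¹) y' = qcl z y := by
      intro z
      rw [qcl_eq, hy']
      refine ⟨g⁻¹, ?_⟩
      group
    have h1 : {z : Γ | qcl x' z = i ∧ qcl z y' = j} =
        (fun z => x' * g * x⁻¹ * z * g⁻¹) '' {z | qcl x z = i ∧ qcl z y = j} := by
      ext z
      simp only [Set.mem_image, Set.mem_ofPred_eq]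
      constructor
      · rintro ⟨h1, h2⟩
        refine ⟨x * g⁻¹ * x'⁻¹ * z * g, ?_, by group⟩
        have e3 : x' * g * x⁻¹ * (x * g⁻¹ * x'⁻¹ * z * g) * g⁻¹ = z := by group
        rw [← e1, ← e2, e3]
        exact ⟨h1, h2⟩
      · rintro ⟨w, ⟨h1, h2⟩, rfl⟩
        rw [e1, e2]
        exact ⟨h1, h2⟩
    rw [h1]
    symm
    apply Set.ncard_image_of_injective
    intro z w hzw
    have h2 : x' * g * x⁻¹ * z * g⁻¹ = x' * g * x⁻¹ * w * g⁻¹ := hzw
    exact mul_left_cancel (mul_right_cancel h2)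

theorem diag_qcl : Diag (qcl (Γ := Γ)) := by
  intro x y z h
  rw [qcl_eq] at h
  obtain ⟨g, hg⟩ := h
  rw [inv_mul_cancel, mul_one, mul_inv_cancel] at hg
  exact (inv_mul_eq_one.1 hg.symm)

theorem comm_qcl (x y : Γ) (i j : ConjClasses Γ) :
    {z | qcl x z = i ∧ qcl z y = j}.ncard = {z | qcl x z = j ∧ qcl z y = i}.ncard := by
  have e1 : ∀ z : Γ, qcl x (x * z⁻¹ * y) = qcl z y := by
    intro z
    unfold qcl
    congr 1
    group
  have e2 : ∀ z : Γ, qcl (x * z⁻¹ * y) y = qcl x z := by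
    intro z
    rw [qcl_eq]
    refine ⟨x⁻¹ * y, ?_⟩
    group
  have h1 : {z | qcl x z = j ∧ qcl z y = i} =
      (fun z => x * z⁻¹ * y) '' {z | qcl x z = i ∧ qcl z y = j} := by
    ext z
    simp only [Set.mem_image, Set.mem_ofPred_eq]
    constructor
    · rintro ⟨h1, h2⟩
      refine ⟨y * z⁻¹ * x, ?_, by group⟩
      have e3 : x * (y * z⁻¹ * x)⁻¹ * y = z := by group
      have f1 := e2 (y * z⁻¹ * x)
      have f2 := e1 (y * z⁻¹ * x)
      rw [e3] at f1 f2
      exact ⟨f1.symm.trans h2, f2.symm.trans h1⟩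
    · rintro ⟨w, ⟨h1, h2⟩, rfl⟩
      rw [e1, e2]
      exact ⟨h2, h1⟩
  rw [h1]
  symm
  apply Set.ncard_image_of_injective
  intro z w hzw
  have h2 : x * z⁻¹ * y = x * w⁻¹ * y := hzw
  exact inv_injective (mul_left_cancel (mul_right_cancel h2))

end cayley

end Pool.Agent.H18.AS
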