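import Pool.Graph.R_seed8.W259.GS.Pack

set_option autoImplicit false

/-!
# A polynomial packing lemma

The proof of `Pool.Agent.W259.GS.packing` with an explicit bound, which is polynomial in `1 / δ`.
-/

namespace Pool.Agent.H18.AS

open Finset Pool.Agent.W259.GS

/-- The packing lemma with an explicit bound. -/
theorem packing_n (N : ℕ) (δ : ℝ) (n : ℕ)
    (hn : (((N : ℝ) + 1) ^ 2) * ((n : ℝ) + 1) ^ (N * 2) * (max 0 (1 - δ)) ^ n < 1)
    (V : Type) [Fintype V]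
    (G : SimpleGraph V) (w : V → ℝ) (hw : ∀ v, 0 ≤ w v) (hsum : ∑ v, w v = 1)
    (hsh : ∀ X : Finset V, Sh G X Set.univ → X.card < N)
    (U : Finset V) (hU : ∀ u ∈ U, ∀ v ∈ U, u ≠ v → δ ≤ nd G w u v) :
    U.card < N * (n + 1) ^ N + 1 := by
  classical
  set r : ℝ := max 0 (1 - δ) with hr
  have hr0 : 0 ≤ r := le_max_left _ _
  by_contra hge
  push Not at hge
  obtain ⟨U', hU', hU'c⟩ := Finset.exists_subset_card_eq hge
  -- the constant
  have hM : ((N * (n + 1) ^ N + 1 : ℕ) : ℝ) ^ 2 * r ^ n < 1 := by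
    refine lt_of_le_of_lt ?_ hn
    have h1 : ((N * (n + 1) ^ N + 1 : ℕ) : ℝ) ≤ ((N : ℝ) + 1) * ((n : ℝ) + 1) ^ N := by
      push_cast
      have : (1 : ℝ) ≤ ((n : ℝ) + 1) ^ N := one_le_pow₀ (by linarith [Nat.cast_nonneg (α := ℝ) n])
      nlinarith
    have h2 : ((N * (n + 1) ^ N + 1 : ℕ) : ℝ) ^ 2 ≤ (((N : ℝ) + 1) * ((n : ℝ) + 1) ^ N) ^ 2 :=
      pow_le_pow_left₀ (Nat.cast_nonneg _) h1 2
    calc ((N * (n + 1) ^ N + 1 : ℕ) : ℝ) ^ 2 * r ^ n
        ≤ (((N : ℝ) + 1) * ((n : ℝ) + 1) ^ N) ^ 2 * r ^ n :=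
          mul_le_mul_of_nonneg_right h2 (pow_nonneg hr0 n)
      _ = ((N : ℝ) + 1) ^ 2 * ((n : ℝ) + 1) ^ (N * 2) * r ^ n := by
          rw [mul_pow, ← pow_mul]
  -- a good sample
  have hsample : ∃ f : Fin n → V, ∀ u ∈ U', ∀ v ∈ U', u ≠ v →
      ∃ t, ¬ (G.Adj u (f t) ↔ G.Adj v (f t)) := by
    by_contra hno
    push Not at hno
    set W : V × V → V → ℝ := fun p z => if (G.Adj p.1 z ↔ G.Adj p.2 z) then w z else 0 with hW
    have hW0 : ∀ p z, 0 ≤ W p z := by
      intro p z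
      simp only [hW]
      split_ifs
      · exact hw z
      · exact le_rfl
    have hWsum : ∀ p ∈ U'.offDiag, ∑ z, W p z ≤ r := by
      intro p hp
      obtain ⟨h1, h2, h3⟩ := Finset.mem_offDiag.1 hp
      have h4 : ∑ z, W p z + nd G w p.1 p.2 = 1 := by
        unfold nd
        rw [← hsum, ← Finset.sum_add_distrib]
        apply Finset.sum_congr rfl
        intro z _
        simp only [hW]
        split_ifs <;> simp
      have h5 := hU p.1 (hU' h1) p.2 (hU' h2) h3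
      have : ∑ z, W p z ≤ 1 - δ := by linarith
      exact this.trans (le_max_right _ _)
    have h1 : (1 : ℝ) ≤ ∑ p ∈ U'.offDiag, (∑ z, W p z) ^ n := by
      have e1 : (1 : ℝ) = ∑ f : Fin n → V, ∏ t, w (f t) := by
        rw [← Fintype.sum_pow, hsum, one_pow]
      have e2 : ∑ p ∈ U'.offDiag, (∑ z, W p z) ^ n =
          ∑ f : Fin n → V, ∑ p ∈ U'.offDiag, ∏ t, W p (f t) := by
        rw [Finset.sum_comm]
        apply Finset.sum_congr rfl
        intro p _
        rw [Fintype.sum_pow]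
      rw [e2, e1]
      apply Finset.sum_le_sum
      intro f _
      obtain ⟨u, hu, v, hv, huv, hall⟩ := hno f
      have hmem : (u, v) ∈ U'.offDiag := Finset.mem_offDiag.2 ⟨hu, hv, huv⟩
      have h2 : ∏ t, w (f t) = ∏ t, W (u, v) (f t) := by
        apply Finset.prod_congr rfl
        intro t _
        simp only [hW]
        rw [if_pos (hall t)]
      rw [h2]
      exact Finset.single_le_sum (f := fun p => ∏ t, W p (f t))
        (fun p _ => Finset.prod_nonneg (fun t _ => hW0 p (f t))) hmem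
    have h2 : ∑ p ∈ U'.offDiag, (∑ z, W p z) ^ n ≤ ∑ _p ∈ U'.offDiag, r ^ n := by
      apply Finset.sum_le_sum
      intro p hp
      exact pow_le_pow_left₀ (Finset.sum_nonneg (fun z _ => hW0 p z)) (hWsum p hp) n
    rw [Finset.sum_const, nsmul_eq_mul] at h2
    have h3 : ((U'.offDiag.card : ℕ) : ℝ) ≤ ((N * (n + 1) ^ N + 1 : ℕ) : ℝ) ^ 2 := by
      rw [← hU'c]
      have : U'.offDiag.card ≤ U'.card ^ 2 := by
        rw [Finset.offDiag_card, sq]
        exact Nat.sub_le _ _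
      exact_mod_cast this
    have h4 : ((U'.offDiag.card : ℕ) : ℝ) * r ^ n ≤ ((N * (n + 1) ^ N + 1 : ℕ) : ℝ) ^ 2 * r ^ n :=
      mul_le_mul_of_nonneg_right h3 (pow_nonneg hr0 n)
    linarith
  obtain ⟨f, hf⟩ := hsample
  set S : Finset V := Finset.univ.image f with hS
  have hSc : S.card ≤ n := by
    calc S.card ≤ (Finset.univ : Finset (Fin n)).card := Finset.card_image_le
      _ = n := by simp
  set 𝒜 : Finset (Finset V) := U'.image (fun u => S.filter (fun z => G.Adj u z)) with h𝒜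
  have hinj : Set.InjOn (fun u => S.filter (fun z => G.Adj u z)) (U' : Set V) := by
    intro u hu v hv huv
    by_contra hne
    obtain ⟨t, ht⟩ := hf u hu v hv hne
    apply ht
    have hmem : f t ∈ S := Finset.mem_image_of_mem f (Finset.mem_univ t)
    have h1 : (f t ∈ S.filter (fun z => G.Adj u z)) ↔ (f t ∈ S.filter (fun z => G.Adj v z)) := by
      dsimp only at huv
      rw [huv]
    rw [Finset.mem_filter, Finset.mem_filter] at h1
    exact ⟨fun h => (h1.1 ⟨hmem, h⟩).2, fun h => (h1.2 ⟨hmem, h⟩).2⟩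
  have h𝒜c : 𝒜.card = N * (n + 1) ^ N + 1 := by
    rw [h𝒜, Finset.card_image_of_injOn hinj, hU'c]
  have hlt : N * (S.card + 1) ^ N < 𝒜.card := by
    rw [h𝒜c]
    have : N * (S.card + 1) ^ N ≤ N * (n + 1) ^ N :=
      Nat.mul_le_mul_left _ (Nat.pow_le_pow_left (by omega) _)
    omega
  obtain ⟨X, hXS, hXc, hXs⟩ := sauer S 𝒜 (by
    intro A hA
    obtain ⟨u, _, rfl⟩ := Finset.mem_image.1 hA
    exact Finset.filter_subset _ _) N hlt
  have hShX : Sh G X Set.univ := by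
    intro A hA
    obtain ⟨B, hB, hBe⟩ := hXs hA
    obtain ⟨u, _, rfl⟩ := Finset.mem_image.1 hB
    refine ⟨u, Set.mem_univ _, fun x hx => ?_⟩
    rw [← hBe, Finset.mem_inter, Finset.mem_filter]
    exact ⟨fun h => ⟨hx, hXS hx, h⟩, fun h => h.2.2⟩
  have := hsh X hShX
  omega

/-- The packing lemma with a polynomial bound. -/
theorem packing_poly (N : ℕ) : ∃ Q : ℝ, 1 ≤ Q ∧ ∀ (δ : ℝ), 0 < δ → δ ≤ 1 → ∀ (V : Type) [Fintype V]
    (G : SimpleGraph V) (w : V → ℝ), (∀ v, 0 ≤ w v) → ∑ v, w v = 1 →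
    (∀ X : Finset V, Sh G X Set.univ → X.card < N) →
    ∀ U : Finset V, (∀ u ∈ U, ∀ v ∈ U, u ≠ v → δ ≤ nd G w u v) →
      (U.card : ℝ) ≤ Q * (1 / δ) ^ (2 * N) := by
  set m : ℕ := 4 * N + 2 with hm
  set A : ℝ := (m.factorial : ℝ) * ((N : ℝ) + 1) ^ 2 * 4 ^ N + 1 with hA
  have hA1 : 1 ≤ A := by
    have : 0 ≤ (m.factorial : ℝ) * ((N : ℝ) + 1) ^ 2 * 4 ^ N := by positivity
    linarith
  have hA0 : 0 < A := by linarith
  refine ⟨N * (A + 2) ^ N + 1, ?_, ?_⟩
  · have : 0 ≤ (N : ℝ) * (A + 2) ^ N := by positivity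
    linarith
  intro δ hδ hδ1 V _ G w hw hsum hsh U hU
  set n : ℕ := ⌈A / δ ^ 2⌉₊ with hn
  have hn1 : A / δ ^ 2 ≤ n := Nat.le_ceil _
  have hn2 : (n : ℝ) < A / δ ^ 2 + 1 := Nat.ceil_lt_add_one (by positivity)
  have hnpos : 1 ≤ (n : ℝ) := by
    refine le_trans ?_ hn1
    rw [le_div_iff₀ (by positivity)]
    nlinarith
  have hAn : A ≤ n * δ ^ 2 := by
    rwa [div_le_iff₀ (by positivity)] at hn1
  have key : (((N : ℝ) + 1) ^ 2) * ((n : ℝ) + 1) ^ (N * 2) * (max 0 (1 - δ)) ^ n < 1 := by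
    have h1 : (max 0 (1 - δ)) ≤ Real.exp (-δ) := by
      apply max_le (Real.exp_pos _).le
      have := Real.add_one_le_exp (-δ)
      linarith
    have h2 : (max 0 (1 - δ)) ^ n ≤ Real.exp (-δ) ^ n :=
      pow_le_pow_left₀ (le_max_left _ _) h1 n
    have h3 : Real.exp (-δ) ^ n = (Real.exp (δ * n))⁻¹ := by
      rw [← Real.exp_nat_mul, ← Real.exp_neg]
      congr 1
      ring
    have h4 : (δ * n) ^ m / (m.factorial : ℝ) ≤ Real.exp (δ * n) :=
      Real.pow_div_factorial_le_exp (δ * n) (by positivity) m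
    have h5 : (A * n) ^ (2 * N + 1) ≤ (δ * n) ^ m := by
      have e : (δ * n) ^ m = ((δ * n) ^ 2) ^ (2 * N + 1) := by
        rw [← pow_mul]
        congr 1
        omega
      rw [e]
      apply pow_le_pow_left₀ (by positivity)
      nlinarith
    have h6 : ((n : ℝ) + 1) ^ (N * 2) ≤ 4 ^ N * (n : ℝ) ^ (2 * N) := by
      have : ((n : ℝ) + 1) ^ (N * 2) ≤ (2 * n) ^ (N * 2) := by
        apply pow_le_pow_left₀ (by positivity)
        linarith
      refine this.trans (le_of_eq ?_)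
      rw [mul_pow, mul_comm N 2, pow_mul]
      norm_num
    have h7 : (m.factorial : ℝ) * (((N : ℝ) + 1) ^ 2 * ((n : ℝ) + 1) ^ (N * 2)) <
        (A * n) ^ (2 * N + 1) := by
      have hn0 : (0 : ℝ) < n := by linarith
      calc (m.factorial : ℝ) * (((N : ℝ) + 1) ^ 2 * ((n : ℝ) + 1) ^ (N * 2))
          ≤ (m.factorial : ℝ) * (((N : ℝ) + 1) ^ 2 * (4 ^ N * (n : ℝ) ^ (2 * N))) := by
            apply mul_le_mul_of_nonneg_left _ (by positivity)
            exact mul_le_mul_of_nonneg_left h6 (by positivity)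
        _ = ((m.factorial : ℝ) * ((N : ℝ) + 1) ^ 2 * 4 ^ N) * (n : ℝ) ^ (2 * N) := by ring
        _ < A * (n : ℝ) ^ (2 * N) := by
            apply mul_lt_mul_of_pos_right _ (by positivity)
            rw [hA]
            linarith
        _ ≤ A ^ (2 * N + 1) * (n : ℝ) ^ (2 * N + 1) := by
            apply mul_le_mul _ _ (by positivity) (by positivity)
            · exact le_self_pow₀ hA1 (by omega)
            · exact pow_le_pow_right₀ hnpos (by omega)
        _ = (A * n) ^ (2 * N + 1) := by rw [mul_pow]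
    have h8 : ((N : ℝ) + 1) ^ 2 * ((n : ℝ) + 1) ^ (N * 2) < Real.exp (δ * n) := by
      refine lt_of_lt_of_le ?_ h4
      rw [lt_div_iff₀ (by positivity)]
      linarith
    calc (((N : ℝ) + 1) ^ 2) * ((n : ℝ) + 1) ^ (N * 2) * (max 0 (1 - δ)) ^ n
        ≤ (((N : ℝ) + 1) ^ 2) * ((n : ℝ) + 1) ^ (N * 2) * (Real.exp (δ * n))⁻¹ := by
          apply mul_le_mul_of_nonneg_left _ (by positivity)
          rw [← h3]
          exact h2
      _ < 1 := by
          rw [mul_inv_lt_iff₀ (Real.exp_pos _)]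
          linarith
  have h := packing_n N δ n key V G w hw hsum hsh U hU
  have h1 : (U.card : ℝ) ≤ N * ((n : ℝ) + 1) ^ N := by
    have : U.card ≤ N * (n + 1) ^ N := by omega
    exact_mod_cast this
  have hδ2 : 1 ≤ 1 / δ ^ 2 := by
    rw [le_div_iff₀ (by positivity)]
    nlinarith
  have h2 : (n : ℝ) + 1 ≤ (A + 2) * (1 / δ) ^ 2 := by
    have e : (A + 2) * (1 / δ) ^ 2 = A / δ ^ 2 + 2 * (1 / δ ^ 2) := by
      field_simp
    rw [e]
    linarith
  have h3 : ((n : ℝ) + 1) ^ N ≤ (A + 2) ^ N * (1 / δ) ^ (2 * N) := by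
    rw [pow_mul, ← mul_pow]
    exact pow_le_pow_left₀ (by positivity) h2 N
  have h4 : 0 ≤ (1 / δ) ^ (2 * N) := by positivity
  calc (U.card : ℝ) ≤ N * ((n : ℝ) + 1) ^ N := h1
    _ ≤ N * ((A + 2) ^ N * (1 / δ) ^ (2 * N)) :=
        mul_le_mul_of_nonneg_left h3 (Nat.cast_nonneg _)
    _ ≤ (N * (A + 2) ^ N + 1) * (1 / δ) ^ (2 * N) := by nlinarith

end Pool.Agent.H18.AS
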