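import Pool.Graph.R_pool_sql_team_seeded_3997aac3.Q112.GS.Coh
import Pool.Agent.H18.AS.Emb
import Pool.Agent.H18.AS.Pack

set_option autoImplicit false

/-!
# Helpers for the arcs of the large classes

A graph `G` which is a union of classes of a homogeneous coherent configuration has a part `P`, which
is also a union of classes, and the rest of `G` has few edges between every vertex and the
neighbourhood in `P` of every other vertex.  `L` is the union of the large classes in `P`.
-/

namespace Pool.Agent.H18.AS

open Finset Pool.Agent.Y394.AT Pool.Agent.Q112.GS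

/-- `P` is a union of classes. -/
def UC {V I : Type} (cl : V → V → I) (P : SimpleGraph V) : Prop :=
  ∀ x y x' y', cl x y = cl x' y' → P.Adj x y → P.Adj x' y'

open Classical in
/-- The situation at one scale. -/
structure Scale {V I : Type} [Fintype V] (cl : V → V → I) (G P L : SimpleGraph V)
    (d la e : ℝ) : Prop where
  coh : Coh cl
  ucG : UC cl G
  ucP : UC cl P
  ucL : UC cl L
  leG : P ≤ G
  leP : L ≤ P
  one : 1 ≤ d
  deg : ∀ v, ((nb P v).card : ℝ) = d
  arc : ∃ a b, L.Adj a b
  val : ∀ a b, L.Adj a b → la * d ≤ ((outS cl (cl a b) a).card : ℝ)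
  tail : ∀ x, ((nb P x \ nb L x).card : ℝ) ≤ e * d
  sep : ∀ a b, (((nb P a).filter (fun w => G.Adj b w ∧ ¬ P.Adj b w)).card : ℝ) ≤ e * d

theorem Scale.reg {V I : Type} [Fintype V] {cl : V → V → I} {G P L : SimpleGraph V}
    {d la e : ℝ} (h : Scale cl G P L d la e) : Reg P d := fun v => Or.inl (h.deg v)

theorem Scale.mono {V I : Type} [Fintype V] {cl : V → V → I} {G P L : SimpleGraph V}
    {d la e e' : ℝ} (h : Scale cl G P L d la e) (he : e ≤ e') : Scale cl G P L d la e' := by
  have hd : 0 ≤ d := by linarith [h.one]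
  have hed : e * d ≤ e' * d := mul_le_mul_of_nonneg_right he hd
  exact { h with
    tail := fun x => (h.tail x).trans hed
    sep := fun a b => (h.sep a b).trans hed }

open Classical in
theorem helped_h (m : ℕ) (F : SimpleGraph (Fin m)) (hF : F.IsAcyclic) (k : ℕ)
    (hk : 1 ≤ k) (la : ℝ) (hla : 0 < la) (hla1 : la ≤ 1) (ε : ℝ) (hε : 0 < ε) :
    ∃ δ : ℝ, 0 < δ ∧ ∃ e : ℝ, 0 < e ∧ ∃ d0 : ℝ, ∀ (V I : Type) [Fintype V]
      (cl : V → V → I) (G P L : SimpleGraph V) (d : ℝ), d0 ≤ d → Scale cl G P L d la e →
      G.CliqueFree (k + 1) → IsEmpty (F ↪g G) →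
      ∀ x y, L.Adj x y → ∃ Z : Finset V, la / 2 * d ≤ (Z.card : ℝ) ∧
        ∀ z ∈ Z, δ * d ≤ (cd P x z : ℝ) ∧
          (((nb P y).filter (fun w => (cd P z w : ℝ) < δ * d)).card : ℝ) ≤ ε * d := by
  obtain ⟨T, hT, ⟨ι⟩⟩ := Pool.Agent.H367R3.forest_in_tree F hF
  have hkR : (1 : ℝ) ≤ k := by exact_mod_cast hk
  have hk0 : (0 : ℝ) < k := by linarith
  set ε1 : ℝ := min ε (la / 2) with hε1
  have hε10 : 0 < ε1 := lt_min hε (by positivity)
  have hε1a : ε1 ≤ ε := min_le_left _ _
  have hε1b : ε1 ≤ la / 2 := min_le_right _ _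
  set lam : ℝ := min 1 (ε1 / 4) with hlam
  have hlam0 : 0 < lam := lt_min one_pos (by positivity)
  have hlam1 : lam ≤ 1 := min_le_left _ _
  have hlamε : lam ≤ ε1 / 4 := min_le_right _ _
  obtain ⟨δe, hδe, d0, hemb⟩ := embed_ls (m + 1) k (by omega) hk lam hlam0 hlam1
  set δ' : ℝ := la * (ε1 / 4) with hδ'
  have hδ'0 : 0 < δ' := by positivity
  set δ : ℝ := min (δe / 2) δ' with hδ
  have hδ0 : 0 < δ := lt_min (by positivity) hδ'0
  have hδa : δ ≤ δe / 2 := min_le_left _ _
  have hδb : δ ≤ δ' := min_le_right _ _
  have hδ1 : δ ≤ 1 := by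
    refine hδb.trans ?_
    rw [hδ']
    nlinarith
  set e : ℝ := min (δe / 2) (ε1 / 8) with he
  have he0 : 0 < e := lt_min (by positivity) (by positivity)
  have hea : e ≤ δe / 2 := min_le_left _ _
  have heb : e ≤ ε1 / 8 := min_le_right _ _
  refine ⟨δ, hδ0, e, he0, d0, ?_⟩
  intro V I _ cl G P L d hd hS hfree hemp
  have hd1 : 1 ≤ d := hS.one
  have hd0 : 0 < d := by linarith
  have hreg : Reg P d := hS.reg
  have hcoh := hS.coh
  have hG : ∀ x y x' y', cl x y = cl x' y' → P.Adj x y → P.Adj x' y' := hS.ucP
  have hval := hS.val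
  obtain ⟨Λ, hΛ⟩ : ∃ Λ : V → V → Finset V, ∀ z x w, w ∈ Λ z x ↔
      (L.Adj x w ∧ w ≠ z ∧ ¬ G.Adj z w ∧ (cd P z w : ℝ) < δe / 2 * d) :=
    ⟨fun z x => (univ : Finset V).filter (fun w => L.Adj x w ∧ w ≠ z ∧ ¬ G.Adj z w ∧
      (cd P z w : ℝ) < δe / 2 * d), fun z x w => by simp⟩
  -- an arc with few light continuations
  obtain ⟨z0, x0, hzx0, hfew⟩ : ∃ z0 x0, L.Adj z0 x0 ∧
      ((Λ z0 x0).card : ℝ) < lam * d := by
    by_contra hcon
    push Not at hcon
    have hsys : LS G d δe lam L.Adj Λ :=
      { adj := fun z x h => hS.leG (hS.leP h)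
        deg := fun v => by
          have h1 := hreg.le hd0.le v
          have h2 : ((univ : Finset V).filter (fun w => L.Adj v w)).card ≤ (nb P v).card := by
            apply Finset.card_le_card
            intro w hw
            rw [mem_nb]
            exact hS.leP (Finset.mem_filter.1 hw).2
          exact le_trans (by exact_mod_cast h2) h1
        cont := by
          intro z x hzx w hw
          obtain ⟨h1, h2, h3, _⟩ := (hΛ z x w).1 hw
          exact ⟨h1, h2, h3⟩
        large := fun z x hzx => hcon z x hzx
        light := by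
          intro p l
          set Lp := (univ : Finset V).filter (fun w => L.Adj p w) with hLp
          have hLpc : (Lp.card : ℝ) ≤ d := by
            have h1 := hreg.le hd0.le p
            have h2 : Lp.card ≤ (nb P p).card := by
              apply Finset.card_le_card
              intro w hw
              rw [mem_nb]
              exact hS.leP (Finset.mem_filter.1 hw).2
            exact le_trans (by exact_mod_cast h2) h1
          -- the part of the neighbourhood in `P`
          have hA : ∑ w ∈ Lp, (((Λ p w).filter (fun y => P.Adj l y)).card : ℝ) ≤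
              δe / 2 * d * d := by
            have h1 := Finset.sum_card_bipartiteAbove_eq_sum_card_bipartiteBelow (s := Lp)
              (t := nb P l) (fun w y => y ∈ Λ p w)
            unfold Finset.bipartiteAbove Finset.bipartiteBelow at h1
            have h2 : ∑ w ∈ Lp, (((Λ p w).filter (fun y => P.Adj l y)).card : ℝ) =
                ((∑ w ∈ Lp, ((nb P l).filter (fun y => y ∈ Λ p w)).card : ℕ) : ℝ) := by
              push_cast
              apply Finset.sum_congr rfl
              intro w _
              congr 2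
              ext y
              simp only [Finset.mem_filter, mem_nb]
              tauto
            rw [h2, h1]
            push_cast
            calc ∑ y ∈ nb P l, ((Lp.filter (fun w => y ∈ Λ p w)).card : ℝ)
                ≤ ∑ y ∈ nb P l, δe / 2 * d := by
                  apply Finset.sum_le_sum
                  intro y _
                  by_cases hex : ∃ w ∈ Lp, y ∈ Λ p w
                  · obtain ⟨w, _, hy⟩ := hex
                    obtain ⟨_, _, _, h4⟩ := (hΛ p w y).1 hy
                    refine le_trans ?_ h4.le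
                    have : (Lp.filter (fun w => y ∈ Λ p w)).card ≤ cd P p y := by
                      unfold cd
                      apply Finset.card_le_card
                      intro x' hx'
                      obtain ⟨h5, h6⟩ := Finset.mem_filter.1 hx'
                      have h7 := ((hΛ p x' y).1 h6).1
                      exact Finset.mem_filter.2 ⟨Finset.mem_univ _,
                        hS.leP (Finset.mem_filter.1 h5).2, (hS.leP h7).symm⟩
                    exact_mod_cast this
                  · push Not at hex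
                    have : Lp.filter (fun w => y ∈ Λ p w) = ∅ := by
                      rw [Finset.filter_eq_empty_iff]
                      intro x hx h
                      exact hex x hx h
                    rw [this]
                    simp only [Finset.card_empty, Nat.cast_zero]
                    positivity
              _ = ((nb P l).card : ℝ) * (δe / 2 * d) := by
                  rw [Finset.sum_const, nsmul_eq_mul]
              _ = δe / 2 * d * d := by rw [hS.deg l]; ring
          -- the rest
          have hB : ∑ w ∈ Lp, (((Λ p w).filter (fun y => G.Adj l y ∧ ¬ P.Adj l y)).card : ℝ) ≤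
              δe / 2 * d * d := by
            calc ∑ w ∈ Lp, (((Λ p w).filter (fun y => G.Adj l y ∧ ¬ P.Adj l y)).card : ℝ)
                ≤ ∑ w ∈ Lp, δe / 2 * d := by
                  apply Finset.sum_le_sum
                  intro w _
                  have h1 : ((Λ p w).filter (fun y => G.Adj l y ∧ ¬ P.Adj l y)).card ≤
                      ((nb P w).filter (fun y => G.Adj l y ∧ ¬ P.Adj l y)).card := by
                    apply Finset.card_le_card
                    intro y hy
                    obtain ⟨h2, h3⟩ := Finset.mem_filter.1 hy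
                    exact Finset.mem_filter.2 ⟨(mem_nb P w y).2 (hS.leP ((hΛ p w y).1 h2).1), h3⟩
                  have h2 : (((Λ p w).filter (fun y => G.Adj l y ∧ ¬ P.Adj l y)).card : ℝ) ≤
                      (((nb P w).filter (fun y => G.Adj l y ∧ ¬ P.Adj l y)).card : ℝ) := by
                    exact_mod_cast h1
                  have h3 : e * d ≤ δe / 2 * d := mul_le_mul_of_nonneg_right hea hd0.le
                  exact h2.trans ((hS.sep w l).trans h3)
              _ = (Lp.card : ℝ) * (δe / 2 * d) := by rw [Finset.sum_const, nsmul_eq_mul]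
              _ ≤ d * (δe / 2 * d) := mul_le_mul_of_nonneg_right hLpc (by positivity)
              _ = δe / 2 * d * d := by ring
          calc ∑ w ∈ Lp, (((Λ p w).filter (fun y => G.Adj l y)).card : ℝ)
              ≤ ∑ w ∈ Lp, ((((Λ p w).filter (fun y => P.Adj l y)).card : ℝ) +
                (((Λ p w).filter (fun y => G.Adj l y ∧ ¬ P.Adj l y)).card : ℝ)) := by
                apply Finset.sum_le_sum
                intro w _
                have : ((Λ p w).filter (fun y => G.Adj l y)).card ≤
                    ((Λ p w).filter (fun y => P.Adj l y)).card +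
                    ((Λ p w).filter (fun y => G.Adj l y ∧ ¬ P.Adj l y)).card := by
                  refine le_trans (Finset.card_le_card ?_) (Finset.card_union_le _ _)
                  intro y hy
                  rw [Finset.mem_union, Finset.mem_filter, Finset.mem_filter]
                  obtain ⟨h1, h2⟩ := Finset.mem_filter.1 hy
                  by_cases h3 : P.Adj l y
                  · exact Or.inl ⟨h1, h3⟩
                  · exact Or.inr ⟨h1, h2, h3⟩
                exact_mod_cast this
            _ ≤ δe / 2 * d * d + δe / 2 * d * d := by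
                rw [Finset.sum_add_distrib]
                exact add_le_add hA hB
            _ = δe * d * d := by ring }
    obtain ⟨a, b, hab⟩ := hS.arc
    obtain ⟨f, hf1, hf2⟩ := hemb V G d L.Adj _ hd hsys ⟨a, b, hab⟩ hfree m (by omega)
      (Fin (m + 1)) T hT (by simp)
    let g : T ↪g G := { toFun := f, inj' := hf1, map_rel_iff' := fun {a b} => (hf2 a b).symm }
    exact hemp.false (ι.trans g)
  have hval0 : la * d ≤ ((outS cl (cl z0 x0) z0).card : ℝ) := hval z0 x0 hzx0
  -- few adjacent continuations of small codegree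
  set n0 : ℕ := ((nb P x0).filter (fun w => P.Adj z0 w ∧ (cd P z0 w : ℝ) < δ' * d)).card with hn0
  have hn0le : (n0 : ℝ) ≤ ε1 / 4 * d := by
    set X := outS cl (cl z0 x0) z0 with hX
    set W := (nb P z0).filter (fun w => (cd P z0 w : ℝ) < δ' * d) with hW
    have h1 := Finset.sum_card_bipartiteAbove_eq_sum_card_bipartiteBelow (s := X)
      (t := W) (fun x w => P.Adj x w)
    unfold Finset.bipartiteAbove Finset.bipartiteBelow at h1
    have h2 : ∀ x ∈ X, (W.filter (fun w => P.Adj x w)).card = n0 := by
      intro x hx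
      have hcx : cl z0 x0 = cl z0 x := ((mem_outS _ z0 x).1 hx).symm
      rw [hn0]
      symm
      have e1 : (nb P x0).filter (fun w => P.Adj z0 w ∧ (cd P z0 w : ℝ) < δ' * d) =
          (univ : Finset V).filter
            (fun w => P.Adj x0 w ∧ P.Adj z0 w ∧ (cd P z0 w : ℝ) < δ' * d) := by
        ext w
        rw [Finset.mem_filter, mem_nb, Finset.mem_filter]
        simp
      have e2 : W.filter (fun w => P.Adj x w) = (univ : Finset V).filter
            (fun w => P.Adj x w ∧ P.Adj z0 w ∧ (cd P z0 w : ℝ) < δ' * d) := by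
        ext w
        rw [hW, Finset.mem_filter, Finset.mem_filter, mem_nb, Finset.mem_filter]
        simp only [Finset.mem_univ, true_and]
        tauto
      rw [e1, e2]
      refine card_pq hcoh (fun i => AdjCl cl P i ∧ CdCl cl P (δ' * d) i) (AdjCl cl P)
        z0 x0 z0 x hcx _ _ ?_ ?_
      · intro w
        rw [adj_iff hG, cd_iff hcoh hG, adj_iff hG, P.adj_comm w x0]
        tauto
      · intro w
        rw [adj_iff hG, cd_iff hcoh hG, adj_iff hG, P.adj_comm w x]
        tauto
    have h3 : ∀ w ∈ W, ((X.filter (fun x => P.Adj x w)).card : ℝ) ≤ δ' * d := by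
      intro w hw
      refine le_trans ?_ (Finset.mem_filter.1 hw).2.le
      have : (X.filter (fun x => P.Adj x w)).card ≤ cd P z0 w := by
        unfold cd
        apply Finset.card_le_card
        intro x hx
        obtain ⟨hx1, hx2⟩ := Finset.mem_filter.1 hx
        have hcx : cl z0 x0 = cl z0 x := ((mem_outS _ z0 x).1 hx1).symm
        exact Finset.mem_filter.2 ⟨Finset.mem_univ _, hG z0 x0 z0 x hcx (hS.leP hzx0), hx2.symm⟩
      exact_mod_cast this
    have hWc : (W.card : ℝ) ≤ d := by
      refine le_trans ?_ (hreg.le hd0.le z0)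
      exact_mod_cast Finset.card_le_card (Finset.filter_subset _ _)
    have h4 : (X.card : ℝ) * n0 ≤ d * (δ' * d) := by
      calc (X.card : ℝ) * n0 = ∑ x ∈ X, ((W.filter (fun w => P.Adj x w)).card : ℝ) := by
            rw [Finset.sum_congr rfl (fun x hx => by rw [h2 x hx]), Finset.sum_const,
              nsmul_eq_mul]
        _ = ∑ w ∈ W, ((X.filter (fun x => P.Adj x w)).card : ℝ) := by exact_mod_cast h1
        _ ≤ ∑ w ∈ W, δ' * d := Finset.sum_le_sum h3
        _ = (W.card : ℝ) * (δ' * d) := by rw [Finset.sum_const, nsmul_eq_mul]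
        _ ≤ d * (δ' * d) := mul_le_mul_of_nonneg_right hWc (by positivity)
    have h5 : (la * d) * n0 ≤ (la * d) * (ε1 / 4 * d) := by
      calc (la * d) * n0 ≤ (X.card : ℝ) * n0 :=
            mul_le_mul_of_nonneg_right hval0 (Nat.cast_nonneg _)
        _ ≤ d * (δ' * d) := h4
        _ = (la * d) * (ε1 / 4 * d) := by rw [hδ']; ring
    exact le_of_mul_le_mul_left h5 (by positivity)
  -- almost all continuations of the arcs in the class are heavy
  have hB0 : (((nb P x0).filter (fun w => (cd P z0 w : ℝ) < δ * d)).card : ℝ) ≤ ε1 * d := by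
    have hsub : (nb P x0).filter (fun w => (cd P z0 w : ℝ) < δ * d) ⊆
        (Λ z0 x0 ∪
          (nb P x0).filter (fun w => P.Adj z0 w ∧ (cd P z0 w : ℝ) < δ' * d)) ∪
        ((nb P x0 \ nb L x0) ∪ (nb P x0).filter (fun w => G.Adj z0 w ∧ ¬ P.Adj z0 w)) := by
      intro w hw
      obtain ⟨hw1, hw2⟩ := Finset.mem_filter.1 hw
      rw [Finset.mem_union, Finset.mem_union, Finset.mem_union]
      by_cases hzw : P.Adj z0 w
      · left; right
        refine Finset.mem_filter.2 ⟨hw1, hzw, lt_of_lt_of_le hw2 ?_⟩
        exact mul_le_mul_of_nonneg_right hδb hd0.le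
      · by_cases hgw : G.Adj z0 w
        · right; right
          exact Finset.mem_filter.2 ⟨hw1, hgw, hzw⟩
        · by_cases hlw : L.Adj x0 w
          · left; left
            rw [hΛ]
            refine ⟨hlw, ?_, hgw, ?_⟩
            · rintro rfl
              rw [cd_self, hS.deg] at hw2
              have h3 : δ * d ≤ 1 * d := mul_le_mul_of_nonneg_right hδ1 hd0.le
              linarith
            · refine lt_of_lt_of_le hw2 ?_
              exact mul_le_mul_of_nonneg_right hδa hd0.le
          · right; left
            rw [Finset.mem_sdiff, mem_nb L]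
            exact ⟨hw1, hlw⟩
    have h2 : (((nb P x0).filter (fun w => (cd P z0 w : ℝ) < δ * d)).card : ℝ) ≤
        (((Λ z0 x0).card : ℝ) + (n0 : ℝ)) + (((nb P x0 \ nb L x0).card : ℝ) +
          (((nb P x0).filter (fun w => G.Adj z0 w ∧ ¬ P.Adj z0 w)).card : ℝ)) := by
      have h3 := (Finset.card_le_card hsub).trans (Finset.card_union_le _ _)
      have h4 := Finset.card_union_le (Λ z0 x0)
        ((nb P x0).filter (fun w => P.Adj z0 w ∧ (cd P z0 w : ℝ) < δ' * d))
      have h5 := Finset.card_union_le (nb P x0 \ nb L x0)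
        ((nb P x0).filter (fun w => G.Adj z0 w ∧ ¬ P.Adj z0 w))
      rw [← hn0] at h4
      have h6 := h3.trans (Nat.add_le_add h4 h5)
      exact_mod_cast h6
    have h3 : lam * d ≤ ε1 / 4 * d := mul_le_mul_of_nonneg_right hlamε hd0.le
    have h4 := hS.tail x0
    have h5 := hS.sep x0 z0
    have h6 : e * d ≤ ε1 / 8 * d := mul_le_mul_of_nonneg_right heb hd0.le
    have h7 : 0 ≤ ε1 * d := by positivity
    linarith
  have hB : ∀ z x, cl z x = cl z0 x0 →
      (((nb P x).filter (fun w => (cd P z w : ℝ) < δ * d)).card : ℝ) ≤ ε1 * d := by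
    intro z x hzx
    refine le_trans (le_of_eq ?_) hB0
    congr 1
    have e1 : ∀ z y : V, (nb P y).filter (fun w => (cd P z w : ℝ) < δ * d) =
        (univ : Finset V).filter (fun w => P.Adj y w ∧ (cd P z w : ℝ) < δ * d) := by
      intro z y
      ext w
      rw [Finset.mem_filter, mem_nb, Finset.mem_filter]
      simp
    rw [e1, e1]
    refine card_pq hcoh (CdCl cl P (δ * d)) (AdjCl cl P) z x z0 x0 hzx _ _ ?_ ?_
    · intro w
      rw [cd_iff hcoh hG, adj_iff hG, P.adj_comm w x]
      tauto
    · intro w
      rw [cd_iff hcoh hG, adj_iff hG, P.adj_comm w x0]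
      tauto
  -- the helpers
  intro x y hxy
  set Y := innS cl (cl z0 x0) y with hY
  set X' := innS cl (cl x y) y with hX'
  have hYc : la * d ≤ (Y.card : ℝ) := by
    rw [hY, ← card_out_eq_inn hcoh (cl z0 x0) z0 y]
    exact hval0
  have hX'c : la * d ≤ (X'.card : ℝ) := by
    rw [hX', ← card_out_eq_inn hcoh (cl x y) x y]
    exact hval x y hxy
  have hX'nb : ∀ x' ∈ X', x' ∈ nb P y := by
    intro x' hx'
    have h1 : cl x y = cl x' y := ((mem_innS _ y x').1 hx').symm
    rw [mem_nb]
    exact (hG x y x' y h1 (hS.leP hxy)).symm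
  set b : ℕ := (Y.filter (fun z => (cd P x z : ℝ) < δ * d)).card with hb
  have hbX : ∀ x' ∈ X', (Y.filter (fun z => (cd P x' z : ℝ) < δ * d)).card = b := by
    intro x' hx'
    have h1 : cl x' y = cl x y := (mem_innS _ y x').1 hx'
    rw [hb]
    have e : ∀ u : V, Y.filter (fun z => (cd P u z : ℝ) < δ * d) = (univ : Finset V).filter
        (fun z => cl z y = cl z0 x0 ∧ (cd P u z : ℝ) < δ * d) := by
      intro u
      ext z
      rw [Finset.mem_filter, hY, mem_innS, Finset.mem_filter]
      simp
    rw [e, e]
    refine card_pq hcoh (CdCl cl P (δ * d)) (fun i => i = cl z0 x0) x' y x y h1 _ _ ?_ ?_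
    · intro z
      rw [cd_iff hcoh hG]
      tauto
    · intro z
      rw [cd_iff hcoh hG]
      tauto
  have hble : (b : ℝ) ≤ (Y.card : ℝ) / 2 := by
    have h1 := Finset.sum_card_bipartiteAbove_eq_sum_card_bipartiteBelow (s := X')
      (t := Y) (fun x' z => (cd P x' z : ℝ) < δ * d)
    unfold Finset.bipartiteAbove Finset.bipartiteBelow at h1
    have h3 : ∀ z ∈ Y, ((X'.filter (fun x' => (cd P x' z : ℝ) < δ * d)).card : ℝ) ≤ ε1 * d := by
      intro z hz
      refine le_trans ?_ (hB z y ((mem_innS _ y z).1 hz))
      have : (X'.filter (fun x' => (cd P x' z : ℝ) < δ * d)).card ≤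
          ((nb P y).filter (fun w => (cd P z w : ℝ) < δ * d)).card := by
        apply Finset.card_le_card
        intro x' hx'
        obtain ⟨h4, h5⟩ := Finset.mem_filter.1 hx'
        rw [cd_comm] at h5
        exact Finset.mem_filter.2 ⟨hX'nb x' h4, h5⟩
      exact_mod_cast this
    have h4 : (X'.card : ℝ) * b ≤ (Y.card : ℝ) * (ε1 * d) := by
      calc (X'.card : ℝ) * b =
            ∑ x' ∈ X', ((Y.filter (fun z => (cd P x' z : ℝ) < δ * d)).card : ℝ) := by
            rw [Finset.sum_congr rfl (fun x' hx' => by rw [hbX x' hx']), Finset.sum_const,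
              nsmul_eq_mul]
        _ = ∑ z ∈ Y, ((X'.filter (fun x' => (cd P x' z : ℝ) < δ * d)).card : ℝ) := by
            exact_mod_cast h1
        _ ≤ ∑ z ∈ Y, ε1 * d := Finset.sum_le_sum h3
        _ = (Y.card : ℝ) * (ε1 * d) := by rw [Finset.sum_const, nsmul_eq_mul]
    have h5 : (la * d) * b ≤ (la * d) * ((Y.card : ℝ) / 2) := by
      calc (la * d) * b ≤ (X'.card : ℝ) * b :=
            mul_le_mul_of_nonneg_right hX'c (Nat.cast_nonneg _)
        _ ≤ (Y.card : ℝ) * (ε1 * d) := h4
        _ ≤ (Y.card : ℝ) * (la / 2 * d) :=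
            mul_le_mul_of_nonneg_left (mul_le_mul_of_nonneg_right hε1b hd0.le)
              (Nat.cast_nonneg _)
        _ = (la * d) * ((Y.card : ℝ) / 2) := by ring
    exact le_of_mul_le_mul_left h5 (by positivity)
  refine ⟨Y.filter (fun z => ¬ (cd P x z : ℝ) < δ * d), ?_, ?_⟩
  · have h3 := Finset.card_filter_add_card_filter_not (s := Y)
      (fun z => (cd P x z : ℝ) < δ * d)
    have h3' : (b : ℝ) + ((Y.filter (fun z => ¬ (cd P x z : ℝ) < δ * d)).card : ℝ) =
        Y.card := by
      exact_mod_cast h3
    linarith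
  · intro z hz
    obtain ⟨hz1, hz2⟩ := Finset.mem_filter.1 hz
    refine ⟨not_lt.1 hz2, ?_⟩
    refine le_trans (hB z y ((mem_innS _ y z).1 hz1)) ?_
    exact mul_le_mul_of_nonneg_right hε1a hd0.le

end Pool.Agent.H18.AS
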