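import Pool.Agent.H18.AS.Step

set_option autoImplicit false

/-!
# The iteration over the scales
-/

namespace Pool.Agent.H18.AS

open Finset Pool.Agent.Y394.AT Pool.Agent.Q112.GS

/-- `C` bounds the chromatic number of the unions of at most `r` classes. -/
def Bd {m : ℕ} (F : SimpleGraph (Fin m)) (k r C : ℕ) : Prop :=
  ∀ (V I : Type) [Fintype V] (cl : V → V → I) (G : SimpleGraph V), Coh cl → Diag cl →
    Normal cl G → UC cl G → {i | ∃ x y, cl x y = i ∧ G.Adj x y}.ncard ≤ r →
    G.CliqueFree (k + 1) → IsEmpty (F ↪g G) → G.Colorable C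

theorem finite_cl {V I : Type} [Fintype V] (cl : V → V → I) (A : V → V → Prop) :
    {i | ∃ x y, cl x y = i ∧ A x y}.Finite := by
  apply Set.Finite.subset (Set.finite_range (fun p : V × V => cl p.1 p.2))
  rintro i ⟨x, y, h1, _⟩
  exact ⟨(x, y), h1⟩

/-- colouring the blocks by induction -/
theorem block_col {m : ℕ} (F : SimpleGraph (Fin m)) (k r C0 : ℕ) (hC0 : Bd F k r C0)
    (V I : Type) [Fintype V] (cl : V → V → I) (G : SimpleGraph V) (hcoh : Coh cl)
    (hdiag : Diag cl) (hn : Normal cl G) (hucG : UC cl G)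
    (hcls : {i | ∃ x y, cl x y = i ∧ G.Adj x y}.ncard ≤ r + 1)
    (hfree : G.CliqueFree (k + 1)) (hemp : IsEmpty (F ↪g G)) (E : V → V → Prop)
    (hE : Closed cl E) (p p' : V) (hpG : G.Adj p p') (hpE : ¬ E p p') (b : V) :
    (G.induce {y | E b y}).Colorable C0 := by
  classical
  refine hC0 {y // E b y} I (fun x y => cl x.1 y.1) (G.induce {y | E b y}) (coh_block hcoh hE b)
    (diag_block hdiag b) (normal_block hcoh G hn hE b) ?_ ?_ ?_ ?_
  · intro x y x' y' h hxy
    rw [SimpleGraph.comap_adj] at hxy ⊢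
    exact hucG _ _ _ _ h hxy
  · have h1 : {i | ∃ x y : {y // E b y}, cl x.1 y.1 = i ∧ (G.induce {y | E b y}).Adj x y} ⊂
        {i | ∃ x y, cl x y = i ∧ G.Adj x y} := by
      rw [Set.ssubset_iff_of_subset]
      · refine ⟨cl p p', ⟨p, p', rfl, hpG⟩, ?_⟩
        rintro ⟨x, y, h1, _⟩
        exact hpE (hE.inv x.1 y.1 p p' h1 (hE.equiv.trans (hE.equiv.symm x.2) y.2))
      · rintro i ⟨x, y, h1, h2⟩
        exact ⟨x.1, y.1, h1, h2⟩
    have h2 := Set.ncard_lt_ncard h1 (finite_cl cl G.Adj)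
    omega
  · exact hfree.comap ⟨(SimpleGraph.Embedding.induce (G := G) {y | E b y}).toCopy⟩
  · exact ⟨fun f => hemp.false (f.trans (SimpleGraph.Embedding.induce {y | E b y}))⟩

theorem iter {m : ℕ} (F : SimpleGraph (Fin m)) (hF : F.IsAcyclic) (k : ℕ) (hk : 1 ≤ k)
    (r C0 : ℕ) (hC0 : Bd F k r C0) : ∀ (p ℓ M C1 : ℕ), ∃ C : ℕ, ∀ (V I : Type) [Fintype V]
      (cl : V → V → I) (G H : SimpleGraph V) (E : Fin ℓ → V → V → Prop), Coh cl → Diag cl →
      Normal cl G → UC cl G → {i | ∃ x y, cl x y = i ∧ G.Adj x y}.ncard ≤ r + 1 →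
      State cl G H M E → H.Colorable C1 →
      {i | ∃ x y, cl x y = i ∧ (G.Adj x y ∧ ¬ H.Adj x y)}.ncard ≤ p →
      G.CliqueFree (k + 1) → IsEmpty (F ↪g G) → G.Colorable C := by
  intro p
  induction p with
  | zero =>
    intro ℓ M C1
    refine ⟨C1, ?_⟩
    intro V I _ cl G H E _ _ _ _ _ _ hH hpend _ _
    refine hH.mono_left ?_
    intro x y hxy
    by_contra hcon
    have h1 : 0 < {i | ∃ x y, cl x y = i ∧ (G.Adj x y ∧ ¬ H.Adj x y)}.ncard := by
      rw [Set.ncard_pos (finite_cl cl _)]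
      exact ⟨cl x y, x, y, rfl, hxy, hcon⟩
    omega
  | succ p ih =>
    intro ℓ M C1
    obtain ⟨M', _, _, hM'⟩ := step_lemma m F hF k hk (r + 1) ℓ M
    obtain ⟨C', hC'⟩ := ih (ℓ + 1) (max M (M' + 1)) (C1 * (M' + 1) * C0)
    refine ⟨max C1 C', ?_⟩
    intro V I _ cl G H E hcoh hdiag hn hucG hcls hst hH hpend hfree hemp
    by_cases hex : ∃ a b, G.Adj a b ∧ ¬ H.Adj a b
    swap
    · push Not at hex
      exact (hH.mono_left (fun x y h => hex x y h)).mono (le_max_left _ _)
    obtain ⟨Q, E', hQ1, hQ2, ⟨p1, p2, hp12⟩, hE', hQE, hcov, _⟩ :=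
      hM' V I cl G H E hcoh hdiag hn hucG hcls hst hex hfree hemp
    obtain ⟨B, hBadj⟩ : ∃ B : SimpleGraph V, ∀ x y, B.Adj x y ↔ (E' x y ∧ G.Adj x y) :=
      ⟨{ Adj := fun x y => E' x y ∧ G.Adj x y
         symm := ⟨fun x y h => ⟨hE'.equiv.symm h.1, h.2.symm⟩⟩
         loopless := ⟨fun x h => G.loopless.irrefl x h.2⟩ }, fun _ _ => Iff.rfl⟩
    have hBcol : B.Colorable C0 := by
      refine colour_blocks G B C0 hE'.equiv (fun x y h => (hBadj x y).1 h) ?_
      intro b
      exact block_col F k r C0 hC0 V I cl G hcoh hdiag hn hucG hcls hfree hemp E' hE' p1 p2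
        (hQ2 p1 p2 hp12).1 (hQE p1 p2 hp12) b
    have hQcol : Q.Colorable (M' + 1) :=
      colour_cov Q M' hQ1 hE' (fun x y z hxy hyz => hn E' hE' x y z hxy (hQ2 y z hyz).1) hQE hcov
    set H' : SimpleGraph V := (H ⊔ Q) ⊔ B with hH'
    have hH'adj : ∀ x y, H'.Adj x y ↔ ((H.Adj x y ∨ Q.Adj x y) ∨ B.Adj x y) := fun x y => by
      rw [hH', SimpleGraph.sup_adj, SimpleGraph.sup_adj]
    have hH'col : H'.Colorable (C1 * (M' + 1) * C0) :=
      colour_sup _ _ _ _ (colour_sup _ _ _ _ hH hQcol) hBcol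
    have hst' : State cl G H' (max M (M' + 1)) (Fin.cons E' E : Fin (ℓ + 1) → V → V → Prop) :=
      { ucH := by
          intro x y x' y' h hxy
          rw [hH'adj] at hxy ⊢
          rcases hxy with (h1 | h1) | h1
          · exact Or.inl (Or.inl (hst.ucH x y x' y' h h1))
          · exact Or.inl (Or.inr (hQ1 x y x' y' h h1))
          · right
            rw [hBadj] at h1 ⊢
            exact ⟨hE'.inv x y x' y' h h1.1, hucG x y x' y' h h1.2⟩
        le := by
          intro x y hxy
          rw [hH'adj] at hxy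
          rcases hxy with (h1 | h1) | h1
          · exact hst.le h1
          · exact (hQ2 x y h1).1
          · exact ((hBadj x y).1 h1).2
        clos := by
          intro s
          refine Fin.cases ?_ ?_ s
          · exact hE'
          · intro s'
            exact hst.clos s'
        inb := by
          intro s
          refine Fin.cases ?_ ?_ s
          · intro x y hxy hG
            exact (hH'adj x y).2 (Or.inr ((hBadj x y).2 ⟨hxy, hG⟩))
          · intro s' x y hxy hG
            exact (hH'adj x y).2 (Or.inl (Or.inl (hst.inb s' x y hxy hG)))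
        cov := by
          classical
          intro b
          obtain ⟨T, hT1, hT2⟩ := hst.cov b
          obtain ⟨T', hT'1, hT'2⟩ := hcov b
          refine ⟨Fin.cons (insert b T') T, ?_, ?_⟩
          · intro s
            refine Fin.cases ?_ ?_ s
            · have h1 : (insert b T').card ≤ T'.card + 1 := Finset.card_insert_le _ _
              have h2 := le_max_right M (M' + 1)
              change (insert b T').card ≤ _
              omega
            · intro s'
              exact (hT1 s').trans (le_max_left _ _)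
          · intro y hy
            rw [hH'adj] at hy
            rcases hy with (h1 | h1) | h1
            · obtain ⟨s, t, ht, hs⟩ := hT2 y h1
              exact ⟨s.succ, t, ht, hs⟩
            · obtain ⟨t, ht, hs⟩ := hT'2 y h1
              exact ⟨0, t, Finset.mem_insert_of_mem ht, hs⟩
            · exact ⟨0, b, Finset.mem_insert_self _ _, ((hBadj b y).1 h1).1⟩ }
    have hpend' : {i | ∃ x y, cl x y = i ∧ (G.Adj x y ∧ ¬ H'.Adj x y)}.ncard ≤ p := by
      have h1 : {i | ∃ x y, cl x y = i ∧ (G.Adj x y ∧ ¬ H'.Adj x y)} ⊂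
          {i | ∃ x y, cl x y = i ∧ (G.Adj x y ∧ ¬ H.Adj x y)} := by
        rw [Set.ssubset_iff_of_subset]
        · refine ⟨cl p1 p2, ⟨p1, p2, rfl, hQ2 p1 p2 hp12⟩, ?_⟩
          rintro ⟨x, y, h1, _, h2⟩
          apply h2
          rw [hH'adj]
          exact Or.inl (Or.inr (hQ1 p1 p2 x y h1.symm hp12))
        · rintro i ⟨x, y, h1, h2, h3⟩
          refine ⟨x, y, h1, h2, fun h4 => h3 ?_⟩
          rw [hH'adj]
          exact Or.inl (Or.inl h4)
      have h2 := Set.ncard_lt_ncard h1 (finite_cl cl _)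
      omega
    exact (hC' V I cl G H' _ hcoh hdiag hn hucG hcls hst' hH'col hpend' hfree hemp).mono
      (le_max_right _ _)

/-- The main theorem. -/
theorem main_bd {m : ℕ} (F : SimpleGraph (Fin m)) (hF : F.IsAcyclic) (k : ℕ) (hk : 1 ≤ k) :
    ∀ r : ℕ, ∃ C : ℕ, Bd F k r C := by
  intro r
  induction r with
  | zero =>
    refine ⟨1, ?_⟩
    intro V I _ cl G _ _ _ _ hcls _ _
    refine ⟨SimpleGraph.Coloring.mk (fun _ => (0 : Fin 1)) ?_⟩
    intro x y hxy _
    have h1 : 0 < {i | ∃ x y, cl x y = i ∧ G.Adj x y}.ncard := by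
      rw [Set.ncard_pos (finite_cl cl _)]
      exact ⟨cl x y, x, y, rfl, hxy⟩
    omega
  | succ r ih =>
    obtain ⟨C0, hC0⟩ := ih
    obtain ⟨C, hC⟩ := iter F hF k hk r C0 hC0 (r + 1) 0 0 1
    refine ⟨C, ?_⟩
    intro V I _ cl G hcoh hdiag hn hucG hcls hfree hemp
    refine hC V I cl G ⊥ (fun s => s.elim0) hcoh hdiag hn hucG hcls ?_ ?_ ?_ hfree hemp
    · exact
        { ucH := fun x y x' y' _ h => h.elim
          le := bot_le
          clos := fun s => s.elim0
          inb := fun s => s.elim0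
          cov := fun b => ⟨fun s => s.elim0, fun s => s.elim0, fun y h => h.elim⟩ }
    · refine ⟨SimpleGraph.Coloring.mk (fun _ => (0 : Fin 1)) ?_⟩
      intro x y hxy
      exact hxy.elim
    · refine le_trans (le_of_eq ?_) hcls
      congr 1
      ext i
      simp

end Pool.Agent.H18.AS
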