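import Pool.Agent.H18.AS.Ball

set_option autoImplicit false

/-!
# The level lemma

At every scale there is a closed equivalence relation, whose classes consist of vertices with nearly
the same neighbourhood, such that the neighbourhoods in the large classes are covered by boundedly
many blocks.
-/

namespace Pool.Agent.H18.AS

open Finset Pool.Agent.Y394.AT Pool.Agent.Q112.GS

theorem coh_mid {V I : Type} [Fintype V] {cl : V → V → I} (hcoh : Coh cl) {x y x' y' : V}
    (h : cl x y = cl x' y') (z : V) : ∃ z', cl x' z' = cl x z ∧ cl z' y' = cl z y := by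
  have h1 := hcoh.count x y x' y' h (cl x z) (cl z y)
  have h2 : 0 < {w | cl x w = cl x z ∧ cl w y = cl z y}.ncard := by
    rw [Set.ncard_pos (Set.toFinite _)]
    exact ⟨z, rfl, rfl⟩
  rw [h1, Set.ncard_pos (Set.toFinite _)] at h2
  obtain ⟨w, hw1, hw2⟩ := h2
  exact ⟨w, hw1, hw2⟩

open Classical in
theorem nd_ge {V : Type} [Fintype V] (G : SimpleGraph V) (w : V → ℝ) (hw : ∀ v, 0 ≤ w v)
    (u v : V) (D : Finset V) (c : ℝ) (hD : ∀ z ∈ D, ¬ (G.Adj u z ↔ G.Adj v z) ∧ c ≤ w z) :
    (D.card : ℝ) * c ≤ Pool.Agent.W259.GS.nd G w u v := by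
  unfold Pool.Agent.W259.GS.nd
  calc (D.card : ℝ) * c = ∑ z ∈ D, c := by rw [Finset.sum_const, nsmul_eq_mul]
    _ ≤ ∑ z ∈ D, (if (G.Adj u z ↔ G.Adj v z) then 0 else w z) := by
        apply Finset.sum_le_sum
        intro z hz
        rw [if_neg (hD z hz).1]
        exact (hD z hz).2
    _ ≤ ∑ z, (if (G.Adj u z ↔ G.Adj v z) then 0 else w z) := by
        apply Finset.sum_le_sum_of_subset_of_nonneg (Finset.subset_univ _)
        intro z _ _
        split_ifs
        · exact le_rfl
        · exact hw z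

open Classical in
/-- The balls are not too small: the polynomial bound. -/
theorem fact2 (N : ℕ) (Q : ℝ) (hQ1 : 1 ≤ Q)
    (hQ : ∀ (δ : ℝ), 0 < δ → δ ≤ 1 → ∀ (V : Type) [Fintype V]
      (G : SimpleGraph V) (w : V → ℝ), (∀ v, 0 ≤ w v) → ∑ v, w v = 1 →
      (∀ X : Finset V, Pool.Agent.W259.GS.Sh G X Set.univ → X.card < N) →
      ∀ U : Finset V, (∀ u ∈ U, ∀ v ∈ U, u ≠ v → δ ≤ Pool.Agent.W259.GS.nd G w u v) →
      (U.card : ℝ) ≤ Q * (1 / δ) ^ (2 * N))
    {V I : Type} [Fintype V] {cl : V → V → I} {G P L : SimpleGraph V} {d la e : ℝ}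
    (hS : Scale cl G P L d la e) (hla : 0 < la)
    (hsh : ∀ X : Finset V, Pool.Agent.W259.GS.Sh G X Set.univ → X.card < N)
    (s κ0 t : ℝ) (hs : s ≤ la / 2) (hs4 : s ≤ 1 / 4) (ht0 : 0 < t) (hts : t ≤ s)
    (het : e ≤ t / 4) (hκ : 0 < κ0) (hb : ∀ x, κ0 * d ≤ ((ball P d s x).card : ℝ)) (x : V) :
    κ0 * (t * κ0 / 8) ^ (2 * N) / Q * d ≤ ((ball P d t x).card : ℝ) := by
  have hd : 0 < d := by linarith [hS.one]
  have hs0 : 0 < s := lt_of_lt_of_le ht0 hts
  set R := ball P d (2 * s) x with hR
  have hRc : (R.card : ℝ) ≤ 2 * d := ball_le hS (by linarith) x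
  have hxR : x ∈ R := self_mem_ball hS.deg hd.le (by linarith) x
  have hR0 : (0 : ℝ) < R.card := by exact_mod_cast Finset.card_pos.2 ⟨x, hxR⟩
  set wt : V → ℝ := fun z => ((R.filter (fun v => P.Adj v z)).card : ℝ) / (R.card * d) with hwt
  have hwt0 : ∀ v, 0 ≤ wt v := fun v => by
    simp only [hwt]
    positivity
  have hwt1 : ∑ v, wt v = 1 := by
    simp only [hwt]
    rw [← Finset.sum_div]
    have h1 := Finset.sum_card_bipartiteAbove_eq_sum_card_bipartiteBelow (s := R)
      (t := (univ : Finset V)) (fun v z => P.Adj v z)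
    unfold Finset.bipartiteAbove Finset.bipartiteBelow at h1
    have h2 : ∑ z : V, ((R.filter (fun v => P.Adj v z)).card : ℝ) =
        ∑ v ∈ R, ((nb P v).card : ℝ) := by
      have h3 : ∑ v ∈ R, (nb P v).card = ∑ z : V, (R.filter (fun v => P.Adj v z)).card := by
        rw [← h1]
        apply Finset.sum_congr rfl
        intro v _
        unfold nb
        rfl
      exact_mod_cast h3.symm
    rw [h2, Finset.sum_congr rfl (fun v _ => hS.deg v), Finset.sum_const, nsmul_eq_mul]
    exact div_self (by positivity)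
  have hκ2 : κ0 ≤ 2 := by
    have h1 := (hb x).trans (ball_le hS (by linarith) x)
    exact le_of_mul_le_mul_right h1 hd
  set δ : ℝ := t * κ0 / 8 with hδ
  have hδ0 : 0 < δ := by positivity
  have hδ1 : δ ≤ 1 := by
    rw [hδ]
    nlinarith
  obtain ⟨U, hUX, hUfar, hUnet⟩ := exists_net (ball P d s x)
    (fun a b => (cd P a b : ℝ) < (1 - t) * d) (fun a b hab => by rw [cd_comm]; exact hab)
  have hUc : (U.card : ℝ) ≤ Q * (1 / δ) ^ (2 * N) := by
    refine hQ δ hδ0 hδ1 V G wt hwt0 hwt1 hsh U ?_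
    intro u hu v hv huv
    have hfar := hUfar u hu v hv huv
    set D := (nb L u).filter (fun z => ¬ G.Adj v z) with hD
    have hDc : t / 2 * d ≤ (D.card : ℝ) := by
      have h1 : (nb P u \ nb P v).card ≤ D.card + ((nb P u \ nb L u).card +
          ((nb P u).filter (fun w => G.Adj v w ∧ ¬ P.Adj v w)).card) := by
        have h2 : nb P u \ nb P v ⊆ D ∪ ((nb P u \ nb L u) ∪
            (nb P u).filter (fun w => G.Adj v w ∧ ¬ P.Adj v w)) := by
          intro w hw
          rw [Finset.mem_sdiff, mem_nb P v] at hw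
          rw [Finset.mem_union, Finset.mem_union, hD, Finset.mem_filter, Finset.mem_sdiff,
            Finset.mem_filter]
          by_cases h3 : w ∈ nb L u
          · by_cases h4 : G.Adj v w
            · exact Or.inr (Or.inr ⟨hw.1, h4, hw.2⟩)
            · exact Or.inl ⟨h3, h4⟩
          · exact Or.inr (Or.inl ⟨hw.1, h3⟩)
        refine (Finset.card_le_card h2).trans ((Finset.card_union_le _ _).trans ?_)
        exact Nat.add_le_add_left (Finset.card_union_le _ _) _
      have h1' : ((nb P u \ nb P v).card : ℝ) ≤ D.card + ((nb P u \ nb L u).card +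
          ((nb P u).filter (fun w => G.Adj v w ∧ ¬ P.Adj v w)).card) := by exact_mod_cast h1
      rw [sdiff_card hS.deg] at h1'
      have h2 := hS.tail u
      have h3 := hS.sep u v
      have h4 : e * d ≤ t / 4 * d := mul_le_mul_of_nonneg_right het hd.le
      linarith
    have hDz : ∀ z ∈ D, ¬ (G.Adj u z ↔ G.Adj v z) ∧ κ0 / (4 * d) ≤ wt z := by
      intro z hz
      obtain ⟨hz1, hz2⟩ := Finset.mem_filter.1 hz
      rw [mem_nb] at hz1
      refine ⟨fun h => hz2 (h.1 (hS.leG (hS.leP hz1))), ?_⟩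
      have h1 := fact1 hS hla (t := s) hz1
      have h2 := Finset.card_filter_add_card_filter_not (s := ball P d s u)
        (fun v => P.Adj v z)
      have h2' : (((ball P d s u).filter (fun v => P.Adj v z)).card : ℝ) +
          (((ball P d s u).filter (fun v => ¬ P.Adj v z)).card : ℝ) = (ball P d s u).card := by
        exact_mod_cast h2
      have h3 : s / la ≤ 1 / 2 := by
        rw [div_le_iff₀ hla]
        linarith
      have h4 : s / la * ((ball P d s u).card : ℝ) ≤ 1 / 2 * ((ball P d s u).card : ℝ) :=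
        mul_le_mul_of_nonneg_right h3 (Nat.cast_nonneg _)
      have h5 := hb u
      have h6 : ((ball P d s u).filter (fun v => P.Adj v z)).card ≤
          (R.filter (fun v => P.Adj v z)).card := by
        apply Finset.card_le_card
        apply Finset.filter_subset_filter
        intro v' hv'
        have := ball_tri hS.deg (hUX hu) hv'
        rw [hR, two_mul]
        exact this
      have h6' : (((ball P d s u).filter (fun v => P.Adj v z)).card : ℝ) ≤
          ((R.filter (fun v => P.Adj v z)).card : ℝ) := by exact_mod_cast h6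
      have h7 : κ0 * d / 2 ≤ ((R.filter (fun v => P.Adj v z)).card : ℝ) := by linarith
      simp only [hwt]
      rw [div_le_div_iff₀ (by positivity) (by positivity)]
      calc κ0 * (R.card * d) ≤ κ0 * (2 * d * d) := by
            apply mul_le_mul_of_nonneg_left _ hκ.le
            exact mul_le_mul_of_nonneg_right hRc hd.le
        _ = (κ0 * d / 2) * (4 * d) := by ring
        _ ≤ ((R.filter (fun v => P.Adj v z)).card : ℝ) * (4 * d) :=
            mul_le_mul_of_nonneg_right h7 (by positivity)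
    refine le_trans ?_ (nd_ge G wt hwt0 u v D _ hDz)
    calc δ = t / 2 * d * (κ0 / (4 * d)) := by
          rw [hδ]
          field_simp
          ring
      _ ≤ (D.card : ℝ) * (κ0 / (4 * d)) := mul_le_mul_of_nonneg_right hDc (by positivity)
  have h1 : (ball P d s x).card ≤ ∑ a ∈ U, (ball P d t a).card := by
    refine le_trans (Finset.card_le_card ?_) (Finset.card_biUnion_le)
    intro y hy
    rw [Finset.mem_biUnion]
    obtain ⟨a, haU, ha⟩ := hUnet y hy
    refine ⟨a, haU, ?_⟩
    rcases ha with ha | ha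
    · rw [ha]
      exact self_mem_ball hS.deg hd.le ht0.le a
    · rw [not_lt] at ha
      rw [mem_ball, cd_comm]
      exact ha
  have h2 : ∑ a ∈ U, (ball P d t a).card = U.card * (ball P d t x).card := by
    rw [Finset.sum_congr rfl (fun a _ => ball_card hS.coh hS.ucP t a x), Finset.sum_const,
      smul_eq_mul]
  rw [h2] at h1
  have h1' : ((ball P d s x).card : ℝ) ≤ (U.card : ℝ) * (ball P d t x).card := by
    exact_mod_cast h1
  have h3 : κ0 * d ≤ Q * (1 / δ) ^ (2 * N) * (ball P d t x).card :=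
    (hb x).trans (h1'.trans (mul_le_mul_of_nonneg_right hUc (Nat.cast_nonneg _)))
  rw [div_mul_eq_mul_div, div_le_iff₀ (by linarith)]
  have h4 : (1 / δ) ^ (2 * N) * δ ^ (2 * N) = 1 := by
    rw [← mul_pow, one_div_mul_cancel hδ0.ne', one_pow]
  calc κ0 * δ ^ (2 * N) * d = (κ0 * d) * δ ^ (2 * N) := by ring
    _ ≤ (Q * (1 / δ) ^ (2 * N) * (ball P d t x).card) * δ ^ (2 * N) :=
        mul_le_mul_of_nonneg_right h3 (by positivity)
    _ = ((1 / δ) ^ (2 * N) * δ ^ (2 * N)) * ((ball P d t x).card * Q) := by ring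
    _ = (ball P d t x).card * Q := by rw [h4, one_mul]

/-- The choice of the scale. -/
theorem select (a m : ℕ) (la γ s0 κs D : ℝ) (hla : 0 < la) (hγ : 0 < γ) (hD : 0 < D)
    (hs0 : s0 = la * γ / 4 ^ (a + 1)) (hm : 2 / κs < 4 ^ m) (hκs : 0 < κs) (b : ℕ → ℝ)
    (hb0 : b 0 ≤ 2 * D) (hbp : ∀ n, 0 < b n) (hbm : κs / 4 ^ (a * m) * D ≤ b m) :
    ∃ n, n < m ∧ s0 / 4 ^ n / la * b n ≤ γ * b (n + 1) := by
  by_contra hcon
  push Not at hcon
  have key : ∀ n, n ≤ m → b n * 4 ^ ((a + 1) * n) ≤ b 0 := by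
    intro n
    induction n with
    | zero =>
      intro _
      simp
    | succ n ih =>
      intro hn
      have h1 := hcon n (by omega)
      have h2 : s0 / 4 ^ n / la ≤ γ / 4 ^ (a + 1) := by
        have h3 : s0 / 4 ^ n ≤ s0 := by
          apply div_le_self
          · rw [hs0]
            positivity
          · exact one_le_pow₀ (by norm_num)
        calc s0 / 4 ^ n / la ≤ s0 / la := div_le_div_of_nonneg_right h3 hla.le
          _ = γ / 4 ^ (a + 1) := by
              rw [hs0]
              field_simp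
      have h3 : γ * b (n + 1) < γ / 4 ^ (a + 1) * b n :=
        lt_of_lt_of_le h1 (mul_le_mul_of_nonneg_right h2 (hbp n).le)
      have h4 : b (n + 1) * 4 ^ (a + 1) < b n := by
        have h5 : γ * (b (n + 1) * 4 ^ (a + 1)) < γ * b n := by
          calc γ * (b (n + 1) * 4 ^ (a + 1)) = (γ * b (n + 1)) * 4 ^ (a + 1) := by ring
            _ < (γ / 4 ^ (a + 1) * b n) * 4 ^ (a + 1) :=
                mul_lt_mul_of_pos_right h3 (by positivity)
            _ = γ * b n := by field_simp
        exact lt_of_mul_lt_mul_left h5 hγ.le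
      calc b (n + 1) * 4 ^ ((a + 1) * (n + 1))
          = (b (n + 1) * 4 ^ (a + 1)) * 4 ^ ((a + 1) * n) := by
            rw [mul_add, mul_one, pow_add]
            ring
        _ ≤ b n * 4 ^ ((a + 1) * n) := mul_le_mul_of_nonneg_right h4.le (by positivity)
        _ ≤ b 0 := ih (by omega)
  have h1 := (key m le_rfl).trans hb0
  have h2 : κs * 4 ^ m * D ≤ 2 * D := by
    calc κs * 4 ^ m * D = (κs / 4 ^ (a * m) * D) * 4 ^ ((a + 1) * m) := by
          rw [add_mul, one_mul, pow_add]
          field_simp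
      _ ≤ b m * 4 ^ ((a + 1) * m) := mul_le_mul_of_nonneg_right hbm (by positivity)
      _ ≤ 2 * D := h1
  have h3 : κs * 4 ^ m ≤ 2 := le_of_mul_le_mul_right h2 hD
  rw [div_lt_iff₀ hκs] at hm
  linarith

end Pool.Agent.H18.AS
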