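import Pool.Agent.H18.AS.Level

set_option autoImplicit false

/-!
# The level lemma: the closed equivalence relation
-/

namespace Pool.Agent.H18.AS

open Finset Pool.Agent.Y394.AT Pool.Agent.Q112.GS

open Classical in
/-- The vertices which are reached by steps to nearly twin vertices. -/
def Par {V : Type} [Fintype V] (P : SimpleGraph V) (d τ : ℝ) (x y : V) : Prop :=
  Relation.ReflTransGen (fun a b => b ∈ ball P d τ a) x y

theorem par_equiv {V : Type} [Fintype V] (P : SimpleGraph V) (d τ : ℝ) :
    Equivalence (Par P d τ) where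
  refl := fun _ => Relation.ReflTransGen.refl
  symm := by
    intro x y h
    unfold Par at h ⊢
    induction h with
    | refl => exact Relation.ReflTransGen.refl
    | tail _ h2 ih => exact Relation.ReflTransGen.head (ball_symm h2) ih
  trans := fun h1 h2 => Relation.ReflTransGen.trans h1 h2

theorem par_cl {V I : Type} [Fintype V] {cl : V → V → I} {P : SimpleGraph V} {d τ : ℝ}
    (hcoh : Coh cl) (hP : UC cl P) (hdeg : ∀ v, ((nb P v).card : ℝ) = d) (hd : 0 ≤ d)
    (hτ : 0 ≤ τ) (x y x' y' : V) (h : cl x y = cl x' y') (hxy : Par P d τ x y) :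
    Par P d τ x' y' := by
  unfold Par at hxy
  induction hxy generalizing x' y' with
  | refl =>
    apply Relation.ReflTransGen.single
    rw [mem_ball, ← cd_cl hcoh hP x x x' y' h, ← mem_ball]
    exact self_mem_ball hdeg hd hτ x
  | @tail b c _ h2 ih =>
    obtain ⟨b', hb1, hb2⟩ := coh_mid hcoh h b
    refine Relation.ReflTransGen.tail (ih x' b' hb1.symm) ?_
    rw [mem_ball] at h2 ⊢
    rwa [cd_cl hcoh hP b' y' b c hb2]

open Classical in
/-- The level lemma. -/
theorem level (m : ℕ) (F : SimpleGraph (Fin m)) (hF : F.IsAcyclic) (k : ℕ)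
    (hk : 1 ≤ k) (la : ℝ) (hla : 0 < la) (hla1 : la ≤ 1) :
    ∃ e : ℝ, 0 < e ∧ ∃ M : ℕ, ∃ d0 : ℝ, ∀ (V I : Type) [Fintype V]
      (cl : V → V → I) (G P L : SimpleGraph V) (d : ℝ), d0 ≤ d → Scale cl G P L d la e →
      G.CliqueFree (k + 1) → IsEmpty (F ↪g G) →
      ∃ E : V → V → Prop, Equivalence E ∧
        (∀ x y x' y', cl x y = cl x' y' → E x y → E x' y') ∧
        (∀ x y, L.Adj x y → ¬ E x y) ∧
        ∀ u, ∃ T : Finset V, T.card ≤ M ∧ ∀ y, L.Adj u y → ∃ t ∈ T, E t y := by
  obtain ⟨N, hN⟩ := Pool.Agent.W259.GS.noShatter F hF.colorable_two (k + 1)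
  obtain ⟨Q, hQ1, hQ⟩ := packing_poly N
  have hkR : (1 : ℝ) ≤ k := by exact_mod_cast hk
  have hk0 : (0 : ℝ) < k := by linarith
  set a : ℕ := 2 * N with ha
  set γ : ℝ := la / (4 * k) with hγ
  have hγ0 : 0 < γ := by positivity
  have hγ4 : γ ≤ 1 / 4 := by
    rw [hγ, div_le_iff₀ (by positivity)]
    linarith
  have hkγ : k * γ = la / 4 := by
    rw [hγ]
    field_simp
  set s0 : ℝ := la * γ / 4 ^ (a + 1) with hs0
  have hs00 : 0 < s0 := by positivity
  have h4a : (4 : ℝ) ≤ 4 ^ (a + 1) := by
    have : (4 : ℝ) ^ 1 ≤ 4 ^ (a + 1) := pow_le_pow_right₀ (by norm_num) (by omega)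
    simpa using this
  have hs0γ : s0 ≤ la * γ / 4 := by
    rw [hs0]
    exact div_le_div_of_nonneg_left (by positivity) (by norm_num) h4a
  have hlaγ : la * γ ≤ γ := by nlinarith
  have hlaγ2 : la * γ ≤ la / 4 := by nlinarith
  have hs0la : s0 ≤ la / 2 := by linarith
  have hs04 : s0 ≤ 1 / 4 := by linarith
  obtain ⟨κ0, hκ0, e1, he1, d0, hap⟩ := apriori m F hF k hk la hla hla1 s0 hs00
  set κf : ℝ → ℝ := fun t => κ0 * (t * κ0 / 8) ^ a / Q with hκf
  have hQ0 : 0 < Q := by linarith
  have hκf0 : ∀ t, 0 < t → 0 < κf t := fun t ht => by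
    simp only [hκf]
    positivity
  obtain ⟨n0, hn0⟩ := pow_unbounded_of_one_lt (2 / κf s0) (by norm_num : (1 : ℝ) < 4)
  set ρm : ℝ := s0 / 4 ^ n0 with hρm
  have hρm0 : 0 < ρm := by positivity
  have hρms : ρm ≤ s0 := by
    rw [hρm]
    exact div_le_self hs00.le (one_le_pow₀ (by norm_num))
  set κ1 : ℝ := κf (ρm / 2) with hκ1
  have hκ10 : 0 < κ1 := hκf0 _ (by positivity)
  refine ⟨min e1 (min (ρm / 8) (κ1 / 2)), lt_min he1 (lt_min (by positivity) (by positivity)),
    ⌈2 / κ1⌉₊, d0, ?_⟩
  intro V I _ cl G P L d hd hS0 hfree hemp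
  have hS1 : Scale cl G P L d la e1 := hS0.mono (min_le_left _ _)
  have hSρ : Scale cl G P L d la (ρm / 8) :=
    hS0.mono ((min_le_right _ _).trans (min_le_left _ _))
  have hSκ : Scale cl G P L d la (κ1 / 2) :=
    hS0.mono ((min_le_right _ _).trans (min_le_right _ _))
  have hd1 : 1 ≤ d := hS0.one
  have hdpos : 0 < d := by linarith
  have hcoh := hS0.coh
  have hP := hS0.ucP
  have hsh : ∀ X : Finset V, Pool.Agent.W259.GS.Sh G X Set.univ → X.card < N :=
    fun X hX => hN V G X hfree hemp hX
  have hbs := hap V I cl G P L d hd hS1 hfree hemp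
  -- lower bound for the balls
  have hlow : ∀ t, ρm / 2 ≤ t → t ≤ s0 → ∀ x, κf t * d ≤ ((ball P d t x).card : ℝ) := by
    intro t ht1 ht2 x
    exact fact2 N Q hQ1 hQ hSρ hla hsh s0 κ0 t hs0la hs04 (by linarith) ht2 (by linarith) hκ0
      hbs x
  have hlow1 : ∀ t, ρm / 2 ≤ t → ∀ x, κ1 * d ≤ ((ball P d t x).card : ℝ) := by
    intro t ht x
    refine (hlow (ρm / 2) le_rfl (by linarith) x).trans ?_
    exact_mod_cast Finset.card_le_card (ball_mono hdpos.le ht x)
  -- the scale
  obtain ⟨u0, v0, huv0⟩ := hS0.arc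
  obtain ⟨n, hn, hsel⟩ := select a n0 la γ s0 (κf s0) d hla hγ0 hdpos hs0 hn0 (hκf0 _ hs00)
    (fun n => ((ball P d (s0 / 4 ^ n) u0).card : ℝ)) (by
      simpa using ball_le hS0 (by linarith) u0) (by
      intro n
      have : u0 ∈ ball P d (s0 / 4 ^ n) u0 :=
        self_mem_ball hS0.deg hdpos.le (by positivity) u0
      exact_mod_cast Finset.card_pos.2 ⟨u0, this⟩) (by
      refine le_trans (le_of_eq ?_) (hlow (s0 / 4 ^ n0) (by linarith) hρms u0)
      have e0 : κf s0 / 4 ^ (a * n0) = κf (s0 / 4 ^ n0) := by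
        have e1 : s0 / 4 ^ n0 * κ0 / 8 = (s0 * κ0 / 8) / 4 ^ n0 := by ring
        have e2 : (s0 * κ0 / 8 / 4 ^ n0) ^ a = (s0 * κ0 / 8) ^ a / 4 ^ (a * n0) := by
          rw [div_pow, ← pow_mul, mul_comm n0 a]
        change κ0 * (s0 * κ0 / 8) ^ a / Q / 4 ^ (a * n0) =
          κ0 * (s0 / 4 ^ n0 * κ0 / 8) ^ a / Q
        rw [e1, e2]
        ring
      rw [e0])
  set ρ : ℝ := s0 / 4 ^ n with hρ
  set τ : ℝ := s0 / 4 ^ (n + 1) with hτ
  have hρ0 : 0 < ρ := by positivity
  have hτ0 : 0 < τ := by positivity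
  have hρτ : ρ = 4 * τ := by
    rw [hρ, hτ, pow_succ]
    field_simp
  have hτρm : ρm ≤ τ := by
    rw [hρm, hτ]
    apply div_le_div_of_nonneg_left hs00.le (by positivity)
    exact pow_le_pow_right₀ (by norm_num) (by omega)
  have hρs : ρ ≤ s0 := by
    rw [hρ]
    exact div_le_self hs00.le (one_le_pow₀ (by norm_num))
  have hcardτ : ∀ x, ((ball P d τ x).card : ℝ) = (ball P d τ u0).card := fun x => by
    exact_mod_cast ball_card hcoh hP τ x u0
  have hcardρ : ∀ x, ((ball P d ρ x).card : ℝ) = (ball P d ρ u0).card := fun x => by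
    exact_mod_cast ball_card hcoh hP ρ x u0
  have hβτ : κ1 * d ≤ ((ball P d τ u0).card : ℝ) := hlow1 τ (by linarith) u0
  have hβτ0 : 0 < ((ball P d τ u0).card : ℝ) := lt_of_lt_of_le (by positivity) hβτ
  -- balls around a good vertex
  have hgood : ∀ z u, (∃ u'' ∈ ball P d (2 * τ) u, L.Adj u'' z) →
      (((ball P d τ u).filter (fun v => ¬ P.Adj v z)).card : ℝ) ≤
        γ * (ball P d τ u0).card := by
    rintro z u ⟨u'', hu'', hL⟩
    have h1 := fact1 hS0 hla (t := ρ) hL
    have h2 : (ball P d τ u).filter (fun v => ¬ P.Adj v z) ⊆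
        (ball P d ρ u'').filter (fun v => ¬ P.Adj v z) := by
      apply Finset.filter_subset_filter
      intro v hv
      have h3 := ball_tri hS0.deg (ball_symm hu'') hv
      exact ball_mono hdpos.le (by linarith) u'' h3
    have h3 : (((ball P d τ u).filter (fun v => ¬ P.Adj v z)).card : ℝ) ≤
        (((ball P d ρ u'').filter (fun v => ¬ P.Adj v z)).card : ℝ) := by
      exact_mod_cast Finset.card_le_card h2
    rw [hcardρ u''] at h1
    exact (h3.trans h1).trans hsel
  have hstep : ∀ z u u', (∃ u'' ∈ ball P d (2 * τ) u, L.Adj u'' z) → u' ∈ ball P d τ u →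
      (∃ u'' ∈ ball P d (2 * τ) u', L.Adj u'' z) := by
    intro z u u' hu hu'
    by_contra hcon
    push Not at hcon
    have h1 := hgood z u hu
    have h2 : (ball P d τ u).card ≤ ((ball P d τ u).filter (fun v => ¬ P.Adj v z)).card +
        (nb P z \ nb L z).card := by
      refine le_trans (Finset.card_le_card ?_) (Finset.card_union_le _ _)
      intro v hv
      rw [Finset.mem_union, Finset.mem_filter, Finset.mem_sdiff, mem_nb, mem_nb]
      by_cases hvz : P.Adj v z
      · right
        refine ⟨hvz.symm, fun h => ?_⟩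
        refine hcon v ?_ h.symm
        have := ball_tri hS0.deg (ball_symm hu') hv
        rw [two_mul]
        exact this
      · exact Or.inl ⟨hv, hvz⟩
    have h2' : ((ball P d τ u).card : ℝ) ≤
        (((ball P d τ u).filter (fun v => ¬ P.Adj v z)).card : ℝ) +
        ((nb P z \ nb L z).card : ℝ) := by exact_mod_cast h2
    rw [hcardτ u] at h2'
    have h3 := hSκ.tail z
    have h4 : γ * ((ball P d τ u0).card : ℝ) ≤ 1 / 4 * ((ball P d τ u0).card : ℝ) :=
      mul_le_mul_of_nonneg_right hγ4 hβτ0.le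
    linarith
  have hpar : ∀ z u u', L.Adj u z → Par P d τ u u' →
      (∃ u'' ∈ ball P d (2 * τ) u', L.Adj u'' z) := by
    intro z u u' huz h
    unfold Par at h
    induction h with
    | refl => exact ⟨u, self_mem_ball hS0.deg hdpos.le (by positivity) u, huz⟩
    | tail _ h2 ih => exact hstep z _ _ ih h2
  -- the vertices of a block are nearly twins
  have htwin : ∀ u u', Par P d τ u u' → ((nb L u \ nb P u').card : ℝ) ≤ (γ + τ) * d := by
    intro u u' huu'
    have hnbL : ((nb L u).card : ℝ) ≤ d := by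
      rw [← hS0.deg u]
      have : (nb L u).card ≤ (nb P u).card := by
        apply Finset.card_le_card
        intro w hw
        rw [mem_nb] at hw ⊢
        exact hS0.leP hw
      exact_mod_cast this
    obtain ⟨v, hv, hvc⟩ : ∃ v ∈ ball P d τ u',
        (((nb L u).filter (fun z => ¬ P.Adj v z)).card : ℝ) ≤ γ * d := by
      by_contra hcon
      push Not at hcon
      have h1 := Finset.sum_card_bipartiteAbove_eq_sum_card_bipartiteBelow (s := nb L u)
        (t := ball P d τ u') (fun z v => ¬ P.Adj v z)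
      unfold Finset.bipartiteAbove Finset.bipartiteBelow at h1
      have h2 : ∑ z ∈ nb L u, (((ball P d τ u').filter (fun v => ¬ P.Adj v z)).card : ℝ) ≤
          d * (γ * (ball P d τ u0).card) := by
        calc ∑ z ∈ nb L u, (((ball P d τ u').filter (fun v => ¬ P.Adj v z)).card : ℝ)
            ≤ ∑ z ∈ nb L u, γ * ((ball P d τ u0).card : ℝ) := by
              apply Finset.sum_le_sum
              intro z hz
              exact hgood z u' (hpar z u u' ((mem_nb L u z).1 hz) huu')
          _ = ((nb L u).card : ℝ) * (γ * ((ball P d τ u0).card : ℝ)) := by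
              rw [Finset.sum_const, nsmul_eq_mul]
          _ ≤ d * (γ * (ball P d τ u0).card) := mul_le_mul_of_nonneg_right hnbL (by positivity)
      have h3 : (∑ v ∈ ball P d τ u', γ * d) <
          ∑ v ∈ ball P d τ u', (((nb L u).filter (fun z => ¬ P.Adj v z)).card : ℝ) := by
        apply Finset.sum_lt_sum_of_nonempty
        · exact ⟨u', self_mem_ball hS0.deg hdpos.le hτ0.le u'⟩
        · intro v hv
          exact hcon v hv
      have h4 : ∑ z ∈ nb L u, (((ball P d τ u').filter (fun v => ¬ P.Adj v z)).card : ℝ) =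
          ∑ v ∈ ball P d τ u', (((nb L u).filter (fun z => ¬ P.Adj v z)).card : ℝ) := by
        exact_mod_cast h1
      rw [Finset.sum_const, nsmul_eq_mul, hcardτ u', ← h4] at h3
      have h5 := lt_of_lt_of_le h3 h2
      have h6 : ((ball P d τ u0).card : ℝ) * (γ * d) = d * (γ * (ball P d τ u0).card) := by ring
      linarith
    have h1 : (nb L u \ nb P u').card ≤ ((nb L u).filter (fun z => ¬ P.Adj v z)).card +
        (nb P v \ nb P u').card := by
      refine le_trans (Finset.card_le_card ?_) (Finset.card_union_le _ _)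
      intro w hw
      rw [Finset.mem_sdiff] at hw
      rw [Finset.mem_union, Finset.mem_filter, Finset.mem_sdiff, mem_nb P v]
      by_cases h : P.Adj v w
      · exact Or.inr ⟨h, hw.2⟩
      · exact Or.inl ⟨hw.1, h⟩
    have h1' : ((nb L u \ nb P u').card : ℝ) ≤
        (((nb L u).filter (fun z => ¬ P.Adj v z)).card : ℝ) +
        ((nb P v \ nb P u').card : ℝ) := by exact_mod_cast h1
    have h2 := ball_sdiff hS0.deg (ball_symm hv)
    linarith
  refine ⟨Par P d τ, par_equiv P d τ,
    fun x y x' y' => par_cl hcoh hP hS0.deg hdpos.le hτ0.le x y x' y', ?_, ?_⟩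
  · -- no arcs in the blocks
    intro u u' hL hE
    set X := outS cl (cl u u') u with hX
    have hXc : la * d ≤ (X.card : ℝ) := hS0.val u u' hL
    have hXL : ∀ w ∈ X, L.Adj u w := by
      intro w hw
      exact hS0.ucL u u' u w ((mem_outS _ u w).1 hw).symm hL
    have h1 := few_dense G k hfree u X (fun w hw => hS0.leG (hS0.leP (hXL w hw))) X
      (Finset.Subset.refl _) (by
        intro w hw
        have hEw : Par P d τ u w :=
          par_cl hcoh hP hS0.deg hdpos.le hτ0.le u u' u w ((mem_outS _ u w).1 hw).symm hE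
        have h2 := htwin u w hEw
        have h3 : (X.filter (fun y => ¬ G.Adj w y)).card ≤ (nb L u \ nb P w).card := by
          apply Finset.card_le_card
          intro y hy
          obtain ⟨hy1, hy2⟩ := Finset.mem_filter.1 hy
          rw [Finset.mem_sdiff, mem_nb, mem_nb]
          exact ⟨hXL y hy1, fun h => hy2 (hS0.leG h)⟩
        have h3' : ((X.filter (fun y => ¬ G.Adj w y)).card : ℝ) ≤
            ((nb L u \ nb P w).card : ℝ) := by exact_mod_cast h3
        calc (k : ℝ) * ((X.filter (fun y => ¬ G.Adj w y)).card : ℝ)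
            ≤ k * ((γ + τ) * d) := mul_le_mul_of_nonneg_left (h3'.trans h2) hk0.le
          _ = (k * γ + k * τ) * d := by ring
          _ ≤ la * d := by
              apply mul_le_mul_of_nonneg_right _ hdpos.le
              have h4 : τ ≤ la * γ := by linarith
              have h5 : k * τ ≤ k * (la * γ) := mul_le_mul_of_nonneg_left h4 hk0.le
              have h6 : k * (la * γ) = la * (k * γ) := by ring
              rw [h6, hkγ] at h5
              rw [hkγ]
              nlinarith
          _ ≤ X.card := hXc)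
    have h2 : (0 : ℝ) < X.card := lt_of_lt_of_le (by positivity) hXc
    nlinarith
  · -- the covering
    intro u
    obtain ⟨T, hTX, hTfar, hTnet⟩ := exists_net (nb L u)
      (fun a b => (cd P a b : ℝ) < (1 - τ) * d) (fun a b hab => by rw [cd_comm]; exact hab)
    refine ⟨T, ?_, ?_⟩
    · have hdisj : ∀ x ∈ T, ∀ y ∈ T, x ≠ y → Disjoint
          ((ball P d (τ / 2) x).filter (fun v => P.Adj v u))
          ((ball P d (τ / 2) y).filter (fun v => P.Adj v u)) := by
        intro x hx y hy hxy
        rw [Finset.disjoint_left]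
        intro v hv1 hv2
        have h1 := ball_tri hS0.deg (Finset.mem_filter.1 hv1).1
          (ball_symm (Finset.mem_filter.1 hv2).1)
        rw [add_halves, mem_ball] at h1
        exact absurd (hTfar x hx y hy hxy) (not_lt.2 h1)
      have h1 : ∑ x ∈ T, ((ball P d (τ / 2) x).filter (fun v => P.Adj v u)).card ≤
          (nb P u).card := by
        rw [← Finset.card_biUnion hdisj]
        apply Finset.card_le_card
        intro v hv
        obtain ⟨x, _, hv2⟩ := Finset.mem_biUnion.1 hv
        rw [mem_nb]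
        exact (Finset.mem_filter.1 hv2).2.symm
      have h2 : ∀ x ∈ T, κ1 * d / 2 ≤
          (((ball P d (τ / 2) x).filter (fun v => P.Adj v u)).card : ℝ) := by
        intro x hx
        have h3 := fact1 hS0 hla (t := τ / 2) ((mem_nb L u x).1 (hTX hx)).symm
        have h4 := Finset.card_filter_add_card_filter_not (s := ball P d (τ / 2) x)
          (fun v => P.Adj v u)
        have h4' : (((ball P d (τ / 2) x).filter (fun v => P.Adj v u)).card : ℝ) +
            (((ball P d (τ / 2) x).filter (fun v => ¬ P.Adj v u)).card : ℝ) =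
            (ball P d (τ / 2) x).card := by exact_mod_cast h4
        have h5 : τ / 2 / la ≤ 1 / 2 := by
          rw [div_le_iff₀ hla]
          linarith
        have h6 : τ / 2 / la * ((ball P d (τ / 2) x).card : ℝ) ≤
            1 / 2 * ((ball P d (τ / 2) x).card : ℝ) :=
          mul_le_mul_of_nonneg_right h5 (Nat.cast_nonneg _)
        have h7 := hlow1 (τ / 2) (by linarith) x
        linarith
      have h3 : (T.card : ℝ) * (κ1 * d / 2) ≤ d := by
        calc (T.card : ℝ) * (κ1 * d / 2) = ∑ x ∈ T, κ1 * d / 2 := by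
              rw [Finset.sum_const, nsmul_eq_mul]
          _ ≤ ∑ x ∈ T, (((ball P d (τ / 2) x).filter (fun v => P.Adj v u)).card : ℝ) :=
              Finset.sum_le_sum h2
          _ ≤ ((nb P u).card : ℝ) := by exact_mod_cast h1
          _ = d := hS0.deg u
      have h4 : (T.card : ℝ) ≤ 2 / κ1 := by
        rw [le_div_iff₀ hκ10]
        have h5 : (T.card : ℝ) * κ1 * d ≤ 2 * d := by linarith
        exact le_of_mul_le_mul_right h5 hdpos
      have h5 : (T.card : ℝ) ≤ ⌈2 / κ1⌉₊ := h4.trans (Nat.le_ceil _)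
      exact_mod_cast h5
    · intro y hy
      obtain ⟨a', haT, ha'⟩ := hTnet y ((mem_nb L u y).2 hy)
      refine ⟨a', haT, ?_⟩
      rcases ha' with ha' | ha'
      · rw [ha']
        exact (par_equiv P d τ).refl _
      · rw [not_lt] at ha'
        apply Relation.ReflTransGen.single
        rw [mem_ball, cd_comm]
        exact ha'

end Pool.Agent.H18.AS
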