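import Pool.Agent.H18.AS.Com

set_option autoImplicit false

/-!
# Narrow classes
-/

namespace Pool.Agent.H18.AS

open Finset Pool.Agent.Y394.AT Pool.Agent.Q112.GS

section narrow

variable {V I : Type} [Fintype V] {cl : V → V → I} {E : V → V → Prop}

/-- covering by blocks with many elements -/
theorem cover_of_big [DecidableEq V] (hE : Equivalence E) (X : Finset V) (q : ℝ)
    (h : ∀ w ∈ X, ∃ Y : Finset V, Y ⊆ X ∧ (∀ z ∈ Y, E z w) ∧ q ≤ (Y.card : ℝ)) :
    ∃ T : Finset V, (T.card : ℝ) * q ≤ X.card ∧ ∀ w ∈ X, ∃ t ∈ T, E t w := by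
  classical
  obtain ⟨T, hTX, hTfar, hTnet⟩ := exists_net X (fun a b => ¬ E a b)
    (fun a b hab h => hab (hE.symm h))
  choose! Y hY1 hY2 hY3 using h
  refine ⟨T, ?_, ?_⟩
  · have hdisj : ∀ x ∈ T, ∀ y ∈ T, x ≠ y → Disjoint (Y x) (Y y) := by
      intro x hx y hy hxy
      rw [Finset.disjoint_left]
      intro z hz1 hz2
      refine hTfar x hx y hy hxy (hE.trans (hE.symm (hY2 x (hTX hx) z hz1)) ?_)
      exact hY2 y (hTX hy) z hz2
    have h1 : ∑ x ∈ T, (Y x).card ≤ X.card := by
      rw [← Finset.card_biUnion hdisj]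
      apply Finset.card_le_card
      intro v hv
      obtain ⟨x, hx, hv2⟩ := Finset.mem_biUnion.1 hv
      exact hY1 x (hTX hx) hv2
    calc (T.card : ℝ) * q = ∑ x ∈ T, q := by rw [Finset.sum_const, nsmul_eq_mul]
      _ ≤ ∑ x ∈ T, ((Y x).card : ℝ) := Finset.sum_le_sum fun x hx => hY3 x (hTX hx)
      _ ≤ X.card := by exact_mod_cast h1
  · intro w hw
    obtain ⟨a, haT, ha⟩ := hTnet w hw
    refine ⟨a, haT, ?_⟩
    rcases ha with ha | ha
    · rw [ha]
      exact hE.refl a
    · rw [not_not] at ha
      exact hE.symm ha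

/-- the class is contained in the equivalence relation -/
def ECl (cl : V → V → I) (E : V → V → Prop) (i : I) : Prop := ∃ x y, cl x y = i ∧ E x y

omit [Fintype V] in
theorem ecl_iff (hE : Closed cl E) (x y : V) : ECl cl E (cl x y) ↔ E x y := by
  constructor
  · rintro ⟨a, b, h1, h2⟩
    exact hE.inv a b x y h1 h2
  · intro h
    exact ⟨x, y, rfl, h⟩

open Classical in
/-- If a class has many arcs from one vertex into one block then it and its transpose are covered
by few blocks. -/
theorem narrow (hcoh : Coh cl) (hE : Closed cl E)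
    (i : I) (hn : ∀ x y z, E x y → (cl y z = i ∨ cl z y = i) → ∃ w, cl x w = cl y z ∧ E w z)
    (a0 t0 : V) (q D : ℝ) (hq : 0 < q)
    (hbig : q ≤ (((outS cl i a0).filter (fun w => E t0 w)).card : ℝ))
    (hD : ((outS cl i a0).card : ℝ) ≤ D) :
    ∀ a, ∃ T : Finset V, (T.card : ℝ) ≤ 2 * (D / q) ∧
      ∀ w, (cl a w = i ∨ cl w a = i) → ∃ t ∈ T, E t w := by
  have hne : 0 < ((outS cl i a0).filter (fun w => E t0 w)).card := by
    have : (0 : ℝ) < (((outS cl i a0).filter (fun w => E t0 w)).card : ℝ) := lt_of_lt_of_le hq hbig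
    exact_mod_cast this
  obtain ⟨w0, hw0⟩ := Finset.card_pos.1 hne
  obtain ⟨hw1, hw2⟩ := Finset.mem_filter.1 hw0
  rw [mem_outS] at hw1
  -- the number of arcs into a block
  have hout : ∀ x y, cl x y = i → (((outS cl i x).filter (fun z => E z y)).card : ℝ) =
      (((outS cl i a0).filter (fun w => E t0 w)).card : ℝ) := by
    intro x y hxy
    have e1 : (outS cl i a0).filter (fun w => E t0 w) =
        (outS cl i a0).filter (fun z => E z w0) := by
      ext w
      rw [Finset.mem_filter, Finset.mem_filter]
      constructor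
      · rintro ⟨h1, h2⟩
        exact ⟨h1, hE.equiv.trans (hE.equiv.symm h2) hw2⟩
      · rintro ⟨h1, h2⟩
        exact ⟨h1, hE.equiv.trans hw2 (hE.equiv.symm h2)⟩
    have e2 : ∀ x y, (outS cl i x).filter (fun z => E z y) =
        (univ : Finset V).filter (fun z => cl x z = i ∧ E z y) := by
      intro x y
      ext w
      rw [Finset.mem_filter, mem_outS, Finset.mem_filter]
      simp
    rw [e1, e2, e2]
    have := card_pq hcoh (fun j => j = i) (ECl cl E) x y a0 w0 (hxy.trans hw1.symm)
      (fun z => cl x z = i ∧ E z y) (fun z => cl a0 z = i ∧ E z w0)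
      (fun z => by rw [ecl_iff hE]) (fun z => by rw [ecl_iff hE])
    exact_mod_cast this
  -- the number of arcs out of a block
  have hinn0 : ∀ x y x' y', cl x y = i → cl x' y' = i →
      ((innS cl i y).filter (fun z => E x z)).card =
      ((innS cl i y').filter (fun z => E x' z)).card := by
    intro x y x' y' hxy hxy'
    have e2 : ∀ x y, (innS cl i y).filter (fun z => E x z) =
        (univ : Finset V).filter (fun z => E x z ∧ cl z y = i) := by
      intro x y
      ext w
      rw [Finset.mem_filter, mem_innS, Finset.mem_filter]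
      simp only [Finset.mem_univ, true_and]
      tauto
    rw [e2, e2]
    exact card_pq hcoh (ECl cl E) (fun j => j = i) x y x' y' (hxy.trans hxy'.symm) _ _
      (fun z => by rw [ecl_iff hE]) (fun z => by rw [ecl_iff hE])
  -- the two numbers agree
  have hinn : ∀ x y, cl x y = i → (((innS cl i y).filter (fun z => E x z)).card : ℝ) =
      (((outS cl i a0).filter (fun w => E t0 w)).card : ℝ) := by
    intro x y hxy
    set R := (univ : Finset V).filter (fun w => ∃ z, cl x z = i ∧ E z w) with hR
    set B := (univ : Finset V).filter (fun z => E x z) with hB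
    set qo := ((outS cl i a0).filter (fun w => E t0 w)).card with hqo
    set qi := ((innS cl i y).filter (fun z => E x z)).card with hqi
    have h1 := Finset.sum_card_bipartiteAbove_eq_sum_card_bipartiteBelow (s := outS cl i x)
      (t := R) (fun z w => E z w)
    have h2 := Finset.sum_card_bipartiteAbove_eq_sum_card_bipartiteBelow (s := B)
      (t := R) (fun z w => cl z w = i)
    unfold Finset.bipartiteAbove Finset.bipartiteBelow at h1 h2
    have hBc : ∀ z, ((univ : Finset V).filter (fun w => E z w)).card = B.card := by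
      intro z
      refine card_pq hcoh (ECl cl E) (fun _ => True) z z x x (hcoh.homog z x) _ _ ?_ ?_
      · intro w
        rw [ecl_iff hE]
        simp
      · intro w
        rw [ecl_iff hE]
        simp
    have h3 : ∀ z ∈ outS cl i x, (R.filter (fun w => E z w)).card = B.card := by
      intro z hz
      rw [← hBc z]
      congr 1
      ext w
      rw [Finset.mem_filter, Finset.mem_filter, Finset.mem_filter]
      simp only [Finset.mem_univ, true_and]
      exact ⟨fun h => h.2, fun h => ⟨⟨z, (mem_outS i x z).1 hz, h⟩, h⟩⟩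
    have h4 : ∀ w ∈ R, ((outS cl i x).filter (fun z => E z w)).card = qo := by
      intro w hw
      obtain ⟨_, z0, hz1, hz2⟩ := Finset.mem_filter.1 hw
      have h5 : (outS cl i x).filter (fun z => E z w) =
          (outS cl i x).filter (fun z => E z z0) := by
        ext z
        rw [Finset.mem_filter, Finset.mem_filter]
        constructor
        · rintro ⟨h6, h7⟩
          exact ⟨h6, hE.equiv.trans h7 (hE.equiv.symm hz2)⟩
        · rintro ⟨h6, h7⟩
          exact ⟨h6, hE.equiv.trans h7 hz2⟩
      rw [h5]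
      exact_mod_cast hout x z0 hz1
    have h5 : ∀ z ∈ B, (R.filter (fun w => cl z w = i)).card = (outS cl i x).card := by
      intro z hz
      rw [card_out hcoh i x z]
      congr 1
      ext w
      rw [Finset.mem_filter, mem_outS, hR, Finset.mem_filter]
      simp only [Finset.mem_univ, true_and]
      constructor
      · exact fun h => h.2
      · intro h
        refine ⟨?_, h⟩
        obtain ⟨w', hw1, hw2⟩ := hn x z w (Finset.mem_filter.1 hz).2 (Or.inl h)
        exact ⟨w', hw1.trans h, hw2⟩
    have h6 : ∀ w ∈ R, (B.filter (fun z => cl z w = i)).card = qi := by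
      intro w hw
      obtain ⟨_, z0, hz1, hz2⟩ := Finset.mem_filter.1 hw
      -- an arc from the block of `x` to `w`
      obtain ⟨w', hw1, hw2⟩ : ∃ w', E x w' ∧ cl w' w = i := by
        obtain ⟨u, hu1, hu2⟩ := hn w z0 x (hE.equiv.symm hz2) (Or.inr hz1)
        refine ⟨u, hE.equiv.symm hu2, ?_⟩
        have := hcoh.symm w u z0 x hu1
        rw [this, hz1]
      have h7 : B.filter (fun z => cl z w = i) = (innS cl i w).filter (fun z => E w' z) := by
        ext z
        rw [Finset.mem_filter, Finset.mem_filter, Finset.mem_filter, mem_innS]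
        simp only [Finset.mem_univ, true_and]
        constructor
        · rintro ⟨h8, h9⟩
          exact ⟨h9, hE.equiv.trans (hE.equiv.symm hw1) h8⟩
        · rintro ⟨h8, h9⟩
          exact ⟨hE.equiv.trans hw1 h9, h8⟩
      rw [h7]
      exact hinn0 w' w x y hw2 hxy
    rw [Finset.sum_congr rfl h3, Finset.sum_congr rfl h4, Finset.sum_const, Finset.sum_const,
      smul_eq_mul, smul_eq_mul] at h1
    rw [Finset.sum_congr rfl h5, Finset.sum_congr rfl h6, Finset.sum_const, Finset.sum_const,
      smul_eq_mul, smul_eq_mul] at h2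
    have hRpos : 0 < R.card := Finset.card_pos.2 ⟨y, Finset.mem_filter.2
      ⟨Finset.mem_univ _, y, hxy, hE.equiv.refl y⟩⟩
    have h7 : R.card * qi = R.card * qo := by
      rw [← h1, ← h2]
      ring
    have h8 : qi = qo := Nat.eq_of_mul_eq_mul_left hRpos h7
    exact_mod_cast h8
  intro a
  obtain ⟨T1, hT1, hT1'⟩ := cover_of_big hE.equiv (outS cl i a) q (by
    intro w hw
    rw [mem_outS] at hw
    refine ⟨(outS cl i a).filter (fun z => E z w), Finset.filter_subset _ _,
      fun z hz => (Finset.mem_filter.1 hz).2, ?_⟩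
    rw [hout a w hw]
    exact hbig)
  obtain ⟨T2, hT2, hT2'⟩ := cover_of_big hE.equiv (innS cl i a) q (by
    intro w hw
    rw [mem_innS] at hw
    refine ⟨(innS cl i a).filter (fun z => E w z), Finset.filter_subset _ _,
      fun z hz => hE.equiv.symm (Finset.mem_filter.1 hz).2, ?_⟩
    rw [hinn w a hw]
    exact hbig)
  have hD1 : ((outS cl i a).card : ℝ) ≤ D := by
    rw [card_out hcoh i a a0]
    exact hD
  have hD2 : ((innS cl i a).card : ℝ) ≤ D := by
    rw [← card_out_eq_inn hcoh i a0 a]
    exact hD
  refine ⟨T1 ∪ T2, ?_, ?_⟩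
  · have h1 : (T1.card : ℝ) ≤ D / q := by
      rw [le_div_iff₀ hq]
      linarith
    have h2 : (T2.card : ℝ) ≤ D / q := by
      rw [le_div_iff₀ hq]
      linarith
    have h3 : ((T1 ∪ T2).card : ℝ) ≤ T1.card + T2.card := by
      exact_mod_cast Finset.card_union_le T1 T2
    linarith
  · rintro w (hw | hw)
    · obtain ⟨t, ht1, ht2⟩ := hT1' w ((mem_outS i a w).2 hw)
      exact ⟨t, Finset.mem_union_left _ ht1, ht2⟩
    · obtain ⟨t, ht1, ht2⟩ := hT2' w ((mem_innS i a w).2 hw)
      exact ⟨t, Finset.mem_union_right _ ht1, ht2⟩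

end narrow

end Pool.Agent.H18.AS
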