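import Pool.Agent.H18.AS.Narrow

set_option autoImplicit false

/-!
# One step of the iteration over the scales
-/

namespace Pool.Agent.H18.AS

open Finset Pool.Agent.Y394.AT Pool.Agent.Q112.GS

theorem exists_pos_le (g : ℕ → ℝ) (r : ℕ) (hg : ∀ n, 0 < g n) :
    ∃ c : ℝ, 0 < c ∧ ∀ n, n ≤ r → c ≤ g n := by
  induction r with
  | zero => exact ⟨g 0, hg 0, fun n hn => by rw [Nat.le_zero.1 hn]⟩
  | succ r ih =>
    obtain ⟨c, hc, h⟩ := ih
    refine ⟨min c (g (r + 1)), lt_min hc (hg _), ?_⟩
    intro n hn
    rcases Nat.lt_or_ge r n with h1 | h1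
    · have : n = r + 1 := by omega
      rw [this]
      exact min_le_right _ _
    · exact (min_le_left _ _).trans (h n h1)

theorem exists_ge {α : Type} [LinearOrder α] (g : ℕ → α) (r : ℕ) :
    ∃ c : α, ∀ n, n ≤ r → g n ≤ c := by
  induction r with
  | zero => exact ⟨g 0, fun n hn => by rw [Nat.le_zero.1 hn]⟩
  | succ r ih =>
    obtain ⟨c, h⟩ := ih
    refine ⟨max c (g (r + 1)), ?_⟩
    intro n hn
    rcases Nat.lt_or_ge r n with h1 | h1
    · have : n = r + 1 := by omega
      rw [this]
      exact le_max_right _ _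
    · exact (h n h1).trans (le_max_left _ _)

/-- An increasing chain of subsets of a set of `r` elements stops. -/
theorem chain_stop {I : Type} (S : Finset I) (r : ℕ) (hS : S.card ≤ r) (P : ℕ → I → Prop)
    (hP : ∀ n i, P n i → P (n + 1) i) : ∃ n, n ≤ r ∧ ∀ i ∈ S, P (n + 1) i → P n i := by
  classical
  by_contra hcon
  push Not at hcon
  have key : ∀ n, n ≤ r + 1 → n ≤ (S.filter (P n)).card := by
    intro n
    induction n with
    | zero => intro _; omega
    | succ n ih =>
      intro hn
      obtain ⟨i, hiS, hi1, hi2⟩ := hcon n (by omega)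
      have h1 : (S.filter (P n)).card < (S.filter (P (n + 1))).card := by
        apply Finset.card_lt_card
        rw [Finset.ssubset_iff_of_subset]
        · exact ⟨i, Finset.mem_filter.2 ⟨hiS, hi1⟩, fun h => hi2 (Finset.mem_filter.1 h).2⟩
        · intro j hj
          obtain ⟨h2, h3⟩ := Finset.mem_filter.1 hj
          exact Finset.mem_filter.2 ⟨h2, hP n j h3⟩
      have := ih (by omega)
      omega
  have h1 := key (r + 1) le_rfl
  have h2 : (S.filter (P (r + 1))).card ≤ S.card := Finset.card_filter_le _ _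
  omega

/-- The state of the iteration: `H` is the part of `G` which has been treated. -/
structure State {V I : Type} [Fintype V] (cl : V → V → I) (G H : SimpleGraph V) {ℓ : ℕ} (M : ℕ)
    (E : Fin ℓ → V → V → Prop) : Prop where
  ucH : UC cl H
  le : H ≤ G
  clos : ∀ s, Closed cl (E s)
  inb : ∀ s x y, E s x y → G.Adj x y → H.Adj x y
  cov : ∀ b, ∃ T : Fin ℓ → Finset V, (∀ s, (T s).card ≤ M) ∧
    ∀ y, H.Adj b y → ∃ s, ∃ t ∈ T s, E s t y

theorem out_symm {V I : Type} [Fintype V] {cl : V → V → I} (hcoh : Coh cl) (x y : V) :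
    (outS cl (cl y x) y).card = (outS cl (cl x y) x).card := by
  rw [card_out_eq_inn hcoh (cl x y) x y]
  congr 1
  ext z
  rw [mem_outS, mem_innS]
  exact ⟨fun h => hcoh.symm y z y x h, fun h => hcoh.symm z y x y h⟩

open Classical in
theorem step_lemma (m : ℕ) (F : SimpleGraph (Fin m)) (hF : F.IsAcyclic) (k : ℕ)
    (hk : 1 ≤ k) (r ℓ M : ℕ) : ∃ M' : ℕ, ∃ κ : ℝ, 0 < κ ∧ ∀ (V I : Type) [Fintype V]
      (cl : V → V → I) (G H : SimpleGraph V) (E : Fin ℓ → V → V → Prop), Coh cl → Diag cl →
      Normal cl G →
      UC cl G → {i | ∃ x y, cl x y = i ∧ G.Adj x y}.ncard ≤ r → State cl G H M E →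
      (∃ a b, G.Adj a b ∧ ¬ H.Adj a b) → G.CliqueFree (k + 1) → IsEmpty (F ↪g G) →
      ∃ (Q : SimpleGraph V) (E' : V → V → Prop), UC cl Q ∧
        (∀ x y, Q.Adj x y → G.Adj x y ∧ ¬ H.Adj x y) ∧ (∃ a b, Q.Adj a b) ∧ Closed cl E' ∧
        (∀ x y, Q.Adj x y → ¬ E' x y) ∧
        (∀ u, ∃ T : Finset V, T.card ≤ M' ∧ ∀ y, Q.Adj u y → ∃ t ∈ T, E' t y) ∧
        ∀ u, κ * ((nb (G \ H) u).card : ℝ) ≤ (nb Q u).card := by
  have hlev := fun (la : ℝ) (h : 0 < la ∧ la ≤ 1) => level m F hF k hk la h.1 h.2
  choose! eF heF MF d0F hlevF using hlev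
  have hr1 : (0 : ℝ) < (r : ℝ) + 1 := by positivity
  set lam : ℕ → ℝ := fun n => Nat.rec (1 / ((r : ℝ) + 1)) (fun _ x => min x (eF x / (r + 1))) n
    with hlam
  have hlam0 : lam 0 = 1 / ((r : ℝ) + 1) := rfl
  have hlams : ∀ n, lam (n + 1) = min (lam n) (eF (lam n) / (r + 1)) := fun n => rfl
  have hlamp : ∀ n, 0 < lam n ∧ lam n ≤ 1 := by
    intro n
    induction n with
    | zero =>
      rw [hlam0]
      refine ⟨by positivity, ?_⟩
      rw [div_le_one hr1]
      linarith [Nat.cast_nonneg (α := ℝ) r]
    | succ n ih =>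
      rw [hlams]
      refine ⟨lt_min ih.1 (div_pos (heF _ ih) hr1), (min_le_left _ _).trans ih.2⟩
  have hlamanti : ∀ n, lam (n + 1) ≤ lam n := fun n => by
    rw [hlams]
    exact min_le_left _ _
  have hlam0' : ∀ n, lam n ≤ 1 / ((r : ℝ) + 1) := by
    intro n
    induction n with
    | zero => rw [hlam0]
    | succ n ih => exact (hlamanti n).trans ih
  obtain ⟨c, hc, hce⟩ := exists_pos_le (fun n => eF (lam n)) r (fun n => heF _ (hlamp n))
  obtain ⟨D0, hD0⟩ := exists_ge (fun n => d0F (lam n)) r
  obtain ⟨MM, hMM⟩ := exists_ge (fun n => MF (lam n)) r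
  set DD : ℝ := max D0 1 with hDD
  set K : ℝ := (r : ℝ) * ℓ * M + 1 with hK
  have hK0 : 0 < K := by positivity
  obtain ⟨κ1, hκ1, hκ1l⟩ := exists_pos_le lam r (fun n => (hlamp n).1)
  refine ⟨max (max MM ⌈DD⌉₊) ⌈2 * (K / c)⌉₊, min (min κ1 1) (c / K),
    lt_min (lt_min hκ1 one_pos) (by positivity), ?_⟩
  intro V I _ cl G H E hcoh hdiag hnorm hucG hcls hst hpend hfree hemp
  obtain ⟨a0, b0, hab0, hab0'⟩ := hpend
  obtain ⟨P, hPadj⟩ : ∃ P : SimpleGraph V, ∀ x y, P.Adj x y ↔ G.Adj x y ∧ ¬ H.Adj x y :=
    ⟨G \ H, fun x y => by rw [SimpleGraph.sdiff_adj]⟩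
  have hucP : UC cl P := by
    intro x y x' y' h hxy
    rw [hPadj] at hxy ⊢
    exact ⟨hucG x y x' y' h hxy.1, fun h' => hxy.2 (hst.ucH x' y' x y h.symm h')⟩
  have hPG : P ≤ G := fun x y h => ((hPadj x y).1 h).1
  set S : Finset I := ((univ : Finset (V × V)).filter (fun p => P.Adj p.1 p.2)).image
    (fun p => cl p.1 p.2) with hS
  have hmemS : ∀ x y, P.Adj x y → cl x y ∈ S := fun x y h =>
    Finset.mem_image.2 ⟨(x, y), Finset.mem_filter.2 ⟨Finset.mem_univ _, h⟩, rfl⟩
  have hSmem : ∀ i ∈ S, ∃ x y, cl x y = i ∧ P.Adj x y := by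
    intro i hi
    obtain ⟨p, hp, rfl⟩ := Finset.mem_image.1 hi
    exact ⟨p.1, p.2, rfl, (Finset.mem_filter.1 hp).2⟩
  have hScard : S.card ≤ r := by
    refine le_trans ?_ hcls
    rw [← Set.ncard_coe_finset]
    apply Set.ncard_le_ncard
    · intro i hi
      obtain ⟨x, y, h1, h2⟩ := hSmem i hi
      exact ⟨x, y, h1, hPG h2⟩
    · apply Set.Finite.subset (Set.finite_range (fun p : V × V => cl p.1 p.2))
      rintro i ⟨x, y, h1, _⟩
      exact ⟨(x, y), h1⟩
  have hScardR : (S.card : ℝ) ≤ r := by exact_mod_cast hScard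
  have hdegN : ∀ v, (nb P v).card = (nb P a0).card := fun v => nb_cl hcoh hucP v a0
  set d : ℝ := ((nb P a0).card : ℝ) with hd
  have hdeg : ∀ v, ((nb P v).card : ℝ) = d := fun v => by rw [hdegN v]
  have hd1N : 1 ≤ (nb P a0).card :=
    Finset.card_pos.2 ⟨b0, (mem_nb P a0 b0).2 ((hPadj a0 b0).2 ⟨hab0, hab0'⟩)⟩
  have hd1 : 1 ≤ d := by
    rw [hd]
    exact_mod_cast hd1N
  have hd0 : 0 < d := by linarith
  have hnbGH : ∀ u, ((nb (G \ H) u).card : ℝ) = d := by
    intro u
    rw [← hdeg u]
    congr 2
    ext w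
    rw [mem_nb, mem_nb, hPadj, SimpleGraph.sdiff_adj]
  by_cases hsep : ∀ a b, (((nb P a).filter (fun w => G.Adj b w ∧ ¬ P.Adj b w)).card : ℝ) ≤ c * d
  · by_cases hbig : DD ≤ d
    · -- the level lemma
      obtain ⟨n, hn, hgap⟩ := chain_stop S r hScard
        (fun n i => ∃ x y, cl x y = i ∧ lam n * d ≤ ((outS cl i x).card : ℝ)) (by
        rintro n i ⟨x, y, h1, h2⟩
        exact ⟨x, y, h1, (mul_le_mul_of_nonneg_right (hlamanti n) hd0.le).trans h2⟩)
      have hout : ∀ i x x', ((outS cl i x).card : ℝ) = (outS cl i x').card := fun i x x' => by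
        rw [card_out hcoh i x x']
      set L : SimpleGraph V :=
        { Adj := fun x y => P.Adj x y ∧ lam n * d ≤ ((outS cl (cl x y) x).card : ℝ)
          symm := ⟨fun x y h => ⟨h.1.symm, by
            rw [out_symm hcoh x y]
            exact h.2⟩⟩
          loopless := ⟨fun x h => P.loopless.irrefl x h.1⟩ } with hL
      have hLadj : ∀ x y, L.Adj x y ↔ (P.Adj x y ∧
          lam n * d ≤ ((outS cl (cl x y) x).card : ℝ)) := fun _ _ => Iff.rfl
      have hsc : Scale cl G P L d (lam n) (eF (lam n)) :=
        { coh := hcoh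
          ucG := hucG
          ucP := hucP
          ucL := by
            intro x y x' y' h hxy
            rw [hLadj] at hxy ⊢
            refine ⟨hucP x y x' y' h hxy.1, ?_⟩
            rw [← h, hout (cl x y) x' x]
            exact hxy.2
          leG := hPG
          leP := fun x y h => h.1
          one := hd1
          deg := hdeg
          arc := by
            by_contra hno
            push Not at hno
            have h1 : nb P a0 ⊆ S.biUnion (fun i => outS cl i a0) := by
              intro w hw
              rw [mem_nb] at hw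
              exact Finset.mem_biUnion.2 ⟨cl a0 w, hmemS a0 w hw, (mem_outS _ a0 w).2 rfl⟩
            have h2 : d ≤ ∑ i ∈ S, ((outS cl i a0).card : ℝ) := by
              have := (Finset.card_le_card h1).trans Finset.card_biUnion_le
              rw [hd]
              exact_mod_cast this
            have h3 : ∑ i ∈ S, ((outS cl i a0).card : ℝ) ≤ ∑ _i ∈ S, 1 / ((r : ℝ) + 1) * d := by
              apply Finset.sum_le_sum
              intro i hi
              obtain ⟨x, y, h4, h5⟩ := hSmem i hi
              have h6 := hno x y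
              rw [hLadj] at h6
              push Not at h6
              have h7 := h6 h5
              rw [h4, hout i x a0] at h7
              exact h7.le.trans (mul_le_mul_of_nonneg_right (hlam0' n) hd0.le)
            rw [Finset.sum_const, nsmul_eq_mul] at h3
            have h4 : (S.card : ℝ) * (1 / ((r : ℝ) + 1) * d) ≤ r * (1 / ((r : ℝ) + 1) * d) :=
              mul_le_mul_of_nonneg_right hScardR (by positivity)
            have h5 : (r : ℝ) * (1 / ((r : ℝ) + 1) * d) < d := by
              rw [← mul_assoc, mul_one_div, div_mul_eq_mul_div, div_lt_iff₀ hr1]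
              nlinarith
            linarith
          val := fun a b h => h.2
          tail := by
            intro x
            set S' := S.filter (fun i => ((outS cl i x).card : ℝ) < lam (n + 1) * d) with hS'
            have h1 : nb P x \ nb L x ⊆ S'.biUnion (fun i => outS cl i x) := by
              intro w hw
              rw [Finset.mem_sdiff, mem_nb, mem_nb] at hw
              obtain ⟨hw1, hw2⟩ := hw
              refine Finset.mem_biUnion.2 ⟨cl x w, ?_, (mem_outS _ x w).2 rfl⟩
              rw [hS', Finset.mem_filter]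
              refine ⟨hmemS x w hw1, ?_⟩
              by_contra hcon
              push Not at hcon
              obtain ⟨x', y', h2, h3⟩ := hgap (cl x w) (hmemS x w hw1) ⟨x, w, rfl, hcon⟩
              apply hw2
              rw [hLadj]
              refine ⟨hw1, ?_⟩
              rw [hout (cl x w) x x']
              exact h3
            have h2 : ((nb P x \ nb L x).card : ℝ) ≤ ∑ i ∈ S', ((outS cl i x).card : ℝ) := by
              exact_mod_cast (Finset.card_le_card h1).trans Finset.card_biUnion_le
            have h3 : ∑ i ∈ S', ((outS cl i x).card : ℝ) ≤ ∑ _i ∈ S', lam (n + 1) * d :=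
              Finset.sum_le_sum fun i hi => (Finset.mem_filter.1 hi).2.le
            rw [Finset.sum_const, nsmul_eq_mul] at h3
            have h4 : (S'.card : ℝ) ≤ r := by
              refine le_trans ?_ hScardR
              exact_mod_cast Finset.card_filter_le _ _
            have h5 : lam (n + 1) ≤ eF (lam n) / (r + 1) := by
              rw [hlams]
              exact min_le_right _ _
            have h6 := heF _ (hlamp n)
            calc ((nb P x \ nb L x).card : ℝ) ≤ (S'.card : ℝ) * (lam (n + 1) * d) := h2.trans h3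
              _ ≤ r * (eF (lam n) / (r + 1) * d) := by
                  apply mul_le_mul h4 _ _ (Nat.cast_nonneg _)
                  · exact mul_le_mul_of_nonneg_right h5 hd0.le
                  · exact mul_nonneg (hlamp (n + 1)).1.le hd0.le
              _ = (r / (r + 1)) * (eF (lam n) * d) := by ring
              _ ≤ 1 * (eF (lam n) * d) := by
                  apply mul_le_mul_of_nonneg_right _ (by positivity)
                  rw [div_le_one hr1]
                  linarith
              _ = eF (lam n) * d := one_mul _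
          sep := fun a b => (hsep a b).trans (mul_le_mul_of_nonneg_right (hce n hn) hd0.le) }
      obtain ⟨E', hE1, hE2, hE3, hE4⟩ := hlevF (lam n) (hlamp n) V I cl G P L d
        ((hD0 n hn).trans ((le_max_left _ _).trans hbig)) hsc hfree hemp
      refine ⟨L, E', hsc.ucL, fun x y h => (hPadj x y).1 h.1, hsc.arc, ⟨hE1, hE2⟩, hE3, ?_, ?_⟩
      · intro u
        obtain ⟨T, hT1, hT2⟩ := hE4 u
        exact ⟨T, hT1.trans ((hMM n hn).trans ((le_max_left _ _).trans (le_max_left _ _))), hT2⟩
      · intro u
        rw [hnbGH u]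
        obtain ⟨a1, b1, hab1⟩ := hsc.arc
        have h1 : ((outS cl (cl a1 b1) u).card : ℝ) ≤ (nb L u).card := by
          have : (outS cl (cl a1 b1) u).card ≤ (nb L u).card := by
            apply Finset.card_le_card
            intro w hw
            rw [mem_outS] at hw
            rw [mem_nb]
            exact hsc.ucL a1 b1 u w hw.symm hab1
          exact_mod_cast this
        rw [hout (cl a1 b1) u a1] at h1
        refine le_trans ?_ (hab1.2.trans h1)
        apply mul_le_mul_of_nonneg_right _ hd0.le
        exact ((min_le_left _ _).trans (min_le_left _ _)).trans (hκ1l n hn)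
    · -- small degree
      push Not at hbig
      refine ⟨P, fun x y => x = y, hucP, fun x y h => (hPadj x y).1 h,
        ⟨a0, b0, (hPadj a0 b0).2 ⟨hab0, hab0'⟩⟩,
        ⟨eq_equivalence, fun x y x' y' h hxy => hdiag x x' y' (by rw [← h, hxy])⟩,
        fun x y h => h.ne, ?_, ?_⟩
      · intro u
        refine ⟨nb P u, ?_, fun y hy => ⟨y, (mem_nb P u y).2 hy, rfl⟩⟩
        refine le_trans ?_ ((le_max_right _ _).trans (le_max_left _ _))
        have h1 : ((nb P u).card : ℝ) ≤ ⌈DD⌉₊ := by
          rw [hdeg u]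
          exact hbig.le.trans (Nat.le_ceil _)
        exact_mod_cast h1
      · intro u
        rw [hnbGH u, hdeg u]
        have h1 : min (min κ1 1) (c / K) ≤ 1 := (min_le_left _ _).trans (min_le_right _ _)
        nlinarith
  · -- a narrow class
    push Not at hsep
    obtain ⟨a, b, hab⟩ := hsep
    obtain ⟨T, hT1, hT2⟩ := hst.cov b
    set q : ℝ := c * d / K with hq
    have hq0 : 0 < q := by positivity
    obtain ⟨i, hi, s, t, ht, hbig⟩ : ∃ i ∈ S, ∃ s, ∃ t ∈ T s,
        q ≤ (((outS cl i a).filter (fun w => E s t w)).card : ℝ) := by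
      by_contra hno
      push Not at hno
      set X := (nb P a).filter (fun w => G.Adj b w ∧ ¬ P.Adj b w) with hX
      have h1 : X ⊆ S.biUnion (fun i => (univ : Finset (Fin ℓ)).biUnion (fun s =>
          (T s).biUnion (fun t => (outS cl i a).filter (fun w => E s t w)))) := by
        intro w hw
        obtain ⟨hw1, hw2, hw3⟩ := Finset.mem_filter.1 hw
        rw [mem_nb] at hw1
        have hHw : H.Adj b w := by
          by_contra hcon
          exact hw3 ((hPadj b w).2 ⟨hw2, hcon⟩)
        obtain ⟨s, t, ht, hst'⟩ := hT2 w hHw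
        refine Finset.mem_biUnion.2 ⟨cl a w, hmemS a w hw1, ?_⟩
        refine Finset.mem_biUnion.2 ⟨s, Finset.mem_univ _, ?_⟩
        refine Finset.mem_biUnion.2 ⟨t, ht, ?_⟩
        exact Finset.mem_filter.2 ⟨(mem_outS _ a w).2 rfl, hst'⟩
      have h2 : (X.card : ℝ) ≤ ∑ i ∈ S, ∑ s : Fin ℓ, ∑ t ∈ T s,
          (((outS cl i a).filter (fun w => E s t w)).card : ℝ) := by
        have h3 : X.card ≤ ∑ i ∈ S, ∑ s : Fin ℓ, ∑ t ∈ T s,
            ((outS cl i a).filter (fun w => E s t w)).card := by
          refine (Finset.card_le_card h1).trans (Finset.card_biUnion_le.trans ?_)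
          apply Finset.sum_le_sum
          intro i _
          refine Finset.card_biUnion_le.trans ?_
          apply Finset.sum_le_sum
          intro s _
          exact Finset.card_biUnion_le
        exact_mod_cast h3
      have h3 : ∑ i ∈ S, ∑ s : Fin ℓ, ∑ t ∈ T s,
          (((outS cl i a).filter (fun w => E s t w)).card : ℝ) ≤
          ∑ _i ∈ S, ∑ _s : Fin ℓ, (M : ℝ) * q := by
        apply Finset.sum_le_sum
        intro i hi
        apply Finset.sum_le_sum
        intro s _
        calc ∑ t ∈ T s, (((outS cl i a).filter (fun w => E s t w)).card : ℝ)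
            ≤ ∑ t ∈ T s, q := Finset.sum_le_sum fun t ht => (hno i hi s t ht).le
          _ = ((T s).card : ℝ) * q := by rw [Finset.sum_const, nsmul_eq_mul]
          _ ≤ M * q := mul_le_mul_of_nonneg_right (by exact_mod_cast hT1 s) hq0.le
      rw [Finset.sum_const, nsmul_eq_mul, Finset.sum_const, nsmul_eq_mul, Finset.card_univ,
        Fintype.card_fin] at h3
      have h4 : (S.card : ℝ) * (ℓ * (M * q)) ≤ r * (ℓ * (M * q)) :=
        mul_le_mul_of_nonneg_right hScardR (by positivity)
      have h5 : (r : ℝ) * (ℓ * (M * q)) ≤ c * d := by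
        have e : (r : ℝ) * (ℓ * (M * q)) = (K - 1) * q := by
          rw [hK]
          ring
        have e2 : K * q = c * d := by
          rw [hq]
          field_simp
        rw [e]
        linarith
      linarith
    obtain ⟨p, p', hpi, hpP⟩ := hSmem i hi
    have hD : ((outS cl i a).card : ℝ) ≤ d := by
      rw [← hdeg a]
      have : (outS cl i a).card ≤ (nb P a).card := by
        apply Finset.card_le_card
        intro w hw
        rw [mem_outS] at hw
        rw [mem_nb]
        exact hucP p p' a w (hpi.trans hw.symm) hpP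
      exact_mod_cast this
    have hnar := narrow hcoh (hst.clos s) i (fun x y z hxy hi => by
      refine hnorm (E s) (hst.clos s) x y z hxy ?_
      rcases hi with hi | hi
      · exact hucG p p' y z (hpi.trans hi.symm) (hPG hpP)
      · exact (hucG p p' z y (hpi.trans hi.symm) (hPG hpP)).symm) a t q d hq0 hbig hD
    set Q : SimpleGraph V :=
      { Adj := fun x y => P.Adj x y ∧ (cl x y = i ∨ cl y x = i)
        symm := ⟨fun x y h => ⟨h.1.symm, h.2.symm⟩⟩
        loopless := ⟨fun x h => P.loopless.irrefl x h.1⟩ } with hQ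
    have hQadj : ∀ x y, Q.Adj x y ↔ (P.Adj x y ∧ (cl x y = i ∨ cl y x = i)) := fun _ _ => Iff.rfl
    refine ⟨Q, E s, ?_, fun x y h => (hPadj x y).1 h.1, ⟨p, p', hpP, Or.inl hpi⟩, hst.clos s,
      ?_, ?_, ?_⟩
    · intro x y x' y' h hxy
      rw [hQadj] at hxy ⊢
      refine ⟨hucP x y x' y' h hxy.1, ?_⟩
      rcases hxy.2 with h1 | h1
      · exact Or.inl (h.symm.trans h1)
      · exact Or.inr ((hcoh.symm x y x' y' h).symm.trans h1)
    · intro x y hxy hE
      have h1 := (hPadj x y).1 hxy.1
      exact h1.2 (hst.inb s x y hE h1.1)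
    · intro u
      obtain ⟨T', hT'1, hT'2⟩ := hnar u
      refine ⟨T', ?_, fun y hy => hT'2 y hy.2⟩
      refine le_trans ?_ (le_max_right _ _)
      have e : d / q = K / c := by
        rw [hq]
        field_simp
      rw [e] at hT'1
      have h1 : (T'.card : ℝ) ≤ ⌈2 * (K / c)⌉₊ := hT'1.trans (Nat.le_ceil _)
      exact_mod_cast h1
    · intro u
      rw [hnbGH u]
      have h1 : ((outS cl i u).card : ℝ) ≤ (nb Q u).card := by
        have : (outS cl i u).card ≤ (nb Q u).card := by
          apply Finset.card_le_card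
          intro w hw
          rw [mem_outS] at hw
          rw [mem_nb]
          exact ⟨hucP p p' u w (hpi.trans hw.symm) hpP, Or.inl hw⟩
        exact_mod_cast this
      have h2 : q ≤ ((outS cl i u).card : ℝ) := by
        rw [card_out hcoh i u a]
        refine hbig.trans ?_
        exact_mod_cast Finset.card_filter_le _ _
      refine le_trans ?_ (h2.trans h1)
      calc min (min κ1 1) (c / K) * d ≤ c / K * d :=
            mul_le_mul_of_nonneg_right (min_le_right _ _) hd0.le
        _ = q := by
            rw [hq]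
            ring

end Pool.Agent.H18.AS
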